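import Pool.Agent.Helper446.LS.EffA

set_option autoImplicit false

/-!
Effectivity of the model.
-/

namespace Pool.Agent.Helper446.LS

open Submodule Encodable Pool.Agent.Helper446.RE Pool.Agent.Helper446.Construct

universe u v

variable {F : Type u} {V : Type v} [Field F] [Primcodable F] [AddCommGroup V] [Module F V]
  [Primcodable V]

section

variable {m : ℕ}

section aux

variable (hadd : Computable₂ fun x y : V => x + y)
  (hsmul : Computable₂ fun (c : F) (x : V) => c • x)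
  (Rl : Set (FreeGroup (Fin m))) {e : Fin 3 × ℕ × List (Fin m × Bool) → V}
  (he : Computable e) (hD : REPred (· ∈ (DD Rl e : Submodule F V)))
  {Ψ : V →ₗ[F] (Yq Rl F × Yq Rl F × Yq Rl F)}
  (hΨ : ∀ p, Ψ (e p) = psi F Rl p)

include hadd hsmul he hD hΨ

omit he in
theorem re_key (γ : Yq Rl F →ₗ[F] (Yq Rl F × Yq Rl F × Yq Rl F))
      (f : ℕ × List (Fin m × Bool) → V) (hf : Computable f)
      (hfS : ∀ p, f p ∈ span F (Set.range e))
      (hfe : ∀ n w, Ψ (f (n, w)) = γ (Finsupp.single (n, cl Rl w) 1)) :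
      REPred (· ∈ Thet (span F (Set.range e)) Ψ (LinearMap.range γ)) := by
    rw [Thet_range hΨ γ f hfS hfe]
    exact re_range hadd hsmul hD hf

omit he hD hΨ in
theorem sub_comp : Computable₂ fun x y : V => x - y := by
  have h1 : Computable fun p : V × V => p.1 + (-1 : F) • p.2 :=
    hadd.comp (by fun_prop) (hsmul.comp (by fun_prop) (by fun_prop))
  refine h1.of_eq fun p => ?_
  rw [neg_one_smul, ← sub_eq_add_neg]

theorem re0 : REPred (· ∈ Thet (span F (Set.range e)) Ψ (LinearMap.range (i1 F (Yq Rl F)))) := by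
  refine re_key hadd hsmul Rl hD hΨ _ (fun p => e (0, p.1, p.2)) (by fun_prop)
    (fun p => subset_span ⟨_, rfl⟩) fun n w => ?_
  rw [hΨ, psi0]

theorem re1 : REPred (· ∈ Thet (span F (Set.range e)) Ψ (LinearMap.range (i2 F (Yq Rl F)))) := by
  refine re_key hadd hsmul Rl hD hΨ _ (fun p => e (1, p.1, p.2)) (by fun_prop)
    (fun p => subset_span ⟨_, rfl⟩) fun n w => ?_
  rw [hΨ, psi1]

theorem re2 : REPred (· ∈ Thet (span F (Set.range e)) Ψ (LinearMap.range (i3 F (Yq Rl F)))) := by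
  refine re_key hadd hsmul Rl hD hΨ _ (fun p => e (2, p.1, p.2)) (by fun_prop)
    (fun p => subset_span ⟨_, rfl⟩) fun n w => ?_
  rw [hΨ, psi2]

theorem re01 : REPred (· ∈ Thet (span F (Set.range e)) Ψ
    (LinearMap.range (ga (LinearMap.id : Yq Rl F →ₗ[F] Yq Rl F)))) := by
  refine re_key hadd hsmul Rl hD hΨ _ (fun p => e (0, p.1, p.2) - e (1, p.1, p.2)) ?_
    (fun p => sub_mem (subset_span ⟨_, rfl⟩) (subset_span ⟨_, rfl⟩)) fun n w => ?_
  · exact (sub_comp hadd hsmul).comp (by fun_prop) (by fun_prop)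
  · rw [map_sub, hΨ, hΨ, psi0, psi1]
    simp

theorem re12 : REPred (· ∈ Thet (span F (Set.range e)) Ψ
    (LinearMap.range (d23 F (Yq Rl F)))) := by
  refine re_key hadd hsmul Rl hD hΨ _ (fun p => e (1, p.1, p.2) - e (2, p.1, p.2)) ?_
    (fun p => sub_mem (subset_span ⟨_, rfl⟩) (subset_span ⟨_, rfl⟩)) fun n w => ?_
  · exact (sub_comp hadd hsmul).comp (by fun_prop) (by fun_prop)
  · rw [map_sub, hΨ, hΨ, psi1, psi2]
    simp

theorem re_g (x : Fin m × Bool) : REPred (· ∈ Thet (span F (Set.range e)) Ψ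
    (LinearMap.range (ga (Tq Rl F (cl Rl [x]))))) := by
  refine re_key hadd hsmul Rl hD hΨ _ (fun p => e (0, p.1, p.2) - e (1, p.1, p.2 ++ [x])) ?_
    (fun p => sub_mem (subset_span ⟨_, rfl⟩) (subset_span ⟨_, rfl⟩)) fun n w => ?_
  · exact (sub_comp hadd hsmul).comp (by fun_prop) (by fun_prop)
  · rw [map_sub, hΨ, hΨ, psi0, psi1, cl_append]
    simp [Tq_single]

omit hadd hsmul he hD in
theorem wd_Thet (w : List (Fin m × Bool)) :
    wd (Thet (span F (Set.range e)) Ψ (LinearMap.range (i1 F (Yq Rl F))))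
      (Thet (span F (Set.range e)) Ψ (LinearMap.range (i2 F (Yq Rl F))))
      (Thet (span F (Set.range e)) Ψ (LinearMap.range (i3 F (Yq Rl F))))
      (Thet (span F (Set.range e)) Ψ (LinearMap.range (ga (LinearMap.id :
        Yq Rl F →ₗ[F] Yq Rl F))))
      (Thet (span F (Set.range e)) Ψ (LinearMap.range (d23 F (Yq Rl F))))
      (fun x => Thet (span F (Set.range e)) Ψ (LinearMap.range (ga (Tq Rl F (cl Rl [x]))))) w =
      Thet (span F (Set.range e)) Ψ (LinearMap.range (ga (Tq Rl F (cl Rl w)))) := by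
  rw [← wd_ga, wd_map (Thet (span F (Set.range e)) Ψ) (Thet_inf _ _) (Thet_sup (map_top hΨ))]

omit hadd hsmul he hD in
theorem frm_Thet : Frm (Thet (span F (Set.range e)) Ψ ⊥)
    (Thet (span F (Set.range e)) Ψ (LinearMap.range (i1 F (Yq Rl F))))
    (Thet (span F (Set.range e)) Ψ (LinearMap.range (i2 F (Yq Rl F))))
    (Thet (span F (Set.range e)) Ψ (LinearMap.range (i3 F (Yq Rl F))))
    (Thet (span F (Set.range e)) Ψ (LinearMap.range (ga (LinearMap.id :
        Yq Rl F →ₗ[F] Yq Rl F))))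
    (Thet (span F (Set.range e)) Ψ (LinearMap.range (d23 F (Yq Rl F)))) :=
  Frm.map (Thet (span F (Set.range e)) Ψ) (Thet_inf _ _) (Thet_sup (map_top hΨ)) frm_model

omit hadd hsmul he hD in
theorem bd_Thet (x : Fin m × Bool) :
    Thet (span F (Set.range e)) Ψ ⊥ ⊓
      Thet (span F (Set.range e)) Ψ (LinearMap.range (ga (Tq Rl F (cl Rl [x])))) =
      Thet (span F (Set.range e)) Ψ ⊥ ∧
    Thet (span F (Set.range e)) Ψ (LinearMap.range (ga (Tq Rl F (cl Rl [x])))) ⊓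
      (Thet (span F (Set.range e)) Ψ (LinearMap.range (i1 F (Yq Rl F))) ⊔
        Thet (span F (Set.range e)) Ψ (LinearMap.range (i2 F (Yq Rl F)))) =
      Thet (span F (Set.range e)) Ψ (LinearMap.range (ga (Tq Rl F (cl Rl [x])))) := by
  constructor
  · rw [← Thet_inf, bot_inf_eq]
  · rw [← Thet_sup (map_top hΨ), ← Thet_inf]
    congr 1
    rw [inf_eq_left]
    rintro ⟨x, y, w⟩ h
    rw [mem_s12]
    exact (mem_ga.1 h).2

end aux

/-- The model, for a set of relators given by a list. -/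
theorem exists_model_aux (hadd : Computable₂ fun x y : V => x + y)
    (hsmul : Computable₂ fun (c : F) (x : V) => c • x) (hinf : ¬ FiniteDimensional F V)
    (hdep : ComputablePred fun l : List V => LinearIndepOn F id {x | x ∈ l})
    (Rl : Set (FreeGroup (Fin m))) {l : List (List (Fin m × Bool))}
    (hl : ∀ r, rws Rl r ↔ r ∈ l) :
    ∃ (z a1 a2 a3 c12 c23 : Submodule F V) (g : Fin m × Bool → Submodule F V),
      REPred (· ∈ z) ∧ REPred (· ∈ a1) ∧ REPred (· ∈ a2) ∧ REPred (· ∈ a3) ∧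
      REPred (· ∈ c12) ∧ REPred (· ∈ c23) ∧ (∀ x, REPred (· ∈ g x)) ∧
      Frm z a1 a2 a3 c12 c23 ∧ (∀ x, z ⊓ g x = z ∧ g x ⊓ (a1 ⊔ a2) = g x) ∧
      (∀ w, FreeGroup.mk w ∈ Subgroup.normalClosure Rl →
        wd a1 a2 a3 c12 c23 g w = c12) ∧
      ∀ w, FreeGroup.mk w ∉ Subgroup.normalClosure Rl →
        ¬ ∃ U : Submodule F V, FiniteDimensional F U ∧ wd a1 a2 a3 c12 c23 g w ⊔ U = c12 ⊔ U := by
  obtain ⟨b, hb, hbi⟩ := exists_indep (F := F) hinf hdep
  obtain ⟨e, he, hei⟩ : ∃ e : Fin 3 × ℕ × List (Fin m × Bool) → V, Computable e ∧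
      LinearIndependent F e :=
    ⟨fun p => b (encode p), hb.comp Computable.encode, hbi.comp _ encode_injective⟩
  obtain ⟨Ψ, hΨ⟩ := exists_ext Rl e hei
  have hD := re_DD hadd hsmul hl he
  refine ⟨_, _, _, _, _, _, _, ?_, re0 hadd hsmul Rl he hD hΨ, re1 hadd hsmul Rl he hD hΨ,
    re2 hadd hsmul Rl he hD hΨ, re01 hadd hsmul Rl he hD hΨ, re12 hadd hsmul Rl he hD hΨ,
    re_g hadd hsmul Rl he hD hΨ, frm_Thet Rl hΨ, bd_Thet Rl hΨ, ?_, ?_⟩
  · rw [Thet_bot hΨ]
    exact hD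
  · intro w hw
    rw [← cl_eq_one_iff] at hw
    rw [wd_Thet Rl hΨ w, hw, Tq_one]
  · intro w hw
    rw [← cl_eq_one_iff] at hw
    rw [wd_Thet Rl hΨ w]
    exact not_starEq hΨ hw

/-- The model. -/
theorem exists_model (hadd : Computable₂ fun x y : V => x + y)
    (hsmul : Computable₂ fun (c : F) (x : V) => c • x) (hinf : ¬ FiniteDimensional F V)
    (hdep : ComputablePred fun l : List V => LinearIndepOn F id {x | x ∈ l})
    (Rl : Finset (FreeGroup (Fin m))) :
    ∃ (z a1 a2 a3 c12 c23 : Submodule F V) (g : Fin m × Bool → Submodule F V),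
      REPred (· ∈ z) ∧ REPred (· ∈ a1) ∧ REPred (· ∈ a2) ∧ REPred (· ∈ a3) ∧
      REPred (· ∈ c12) ∧ REPred (· ∈ c23) ∧ (∀ x, REPred (· ∈ g x)) ∧
      Frm z a1 a2 a3 c12 c23 ∧ (∀ x, z ⊓ g x = z ∧ g x ⊓ (a1 ⊔ a2) = g x) ∧
      (∀ w, FreeGroup.mk w ∈ Subgroup.normalClosure (Rl : Set (FreeGroup (Fin m))) →
        wd a1 a2 a3 c12 c23 g w = c12) ∧
      ∀ w, FreeGroup.mk w ∉ Subgroup.normalClosure (Rl : Set (FreeGroup (Fin m))) →
        ¬ ∃ U : Submodule F V, FiniteDimensional F U ∧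
          wd a1 a2 a3 c12 c23 g w ⊔ U = c12 ⊔ U := by
  obtain ⟨l, hl⟩ := rws_list Rl
  exact exists_model_aux hadd hsmul hinf hdep _ hl

end

end Pool.Agent.Helper446.LS
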