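import Pool.Agent.Helper446.LS.Theta
import Pool.Agent.Helper446.Construct

set_option autoImplicit false

/-!
Effectivity of the model.
-/

namespace Pool.Agent.Helper446.LS

open Submodule Encodable Pool.Agent.Helper446.RE Pool.Agent.Helper446.Construct

universe u v

variable {F : Type u} {V : Type v} [Field F] [Primcodable F] [AddCommGroup V] [Module F V]
  [Primcodable V]

/-- A computable linearly independent sequence. -/
theorem exists_indep (hinf : ¬ FiniteDimensional F V)
    (hdep : ComputablePred fun l : List V => LinearIndepOn F id {x | x ∈ l}) :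
    ∃ b : ℕ → V, Computable b ∧ LinearIndependent F b := by
  obtain ⟨nxt, hnxt, hdom, hspec⟩ := uniformize
    (r := fun (l : List V) (v : V) => LinearIndepOn F id {x | x ∈ v :: l} ∧ v ∉ l) (by
      refine RE.and ?_ ?_
      · exact (cp_comp hdep (f := fun x : List V × V => x.2 :: x.1) (by fun_prop)).to_re
      · exact not_mem_list (by fun_prop) (by fun_prop))
  let st : ℕ → Part (List V) := fun n =>
    Nat.rec (motive := fun _ => Part (List V)) (Part.some []) (fun _ IH => IH.bind fun i =>
      (nxt i).map (fun v => v :: i)) n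
  have hst : Partrec st := by
    refine Partrec.nat_rec (f := fun n : ℕ => n) (g := fun _ => Part.some [])
      (h := fun _ (q : ℕ × List V) => (nxt q.2).map (fun v => v :: q.2)) Computable.id
      (Partrec.some.comp (Computable.const [])) ?_
    refine Partrec.map (f := fun q : ℕ × (ℕ × List V) => nxt q.2.2)
      (g := fun q v => v :: q.2.2) (hnxt.comp (by fun_prop)) ?_
    unfold Computable₂
    fun_prop
  have hex : ∀ l : List V, LinearIndepOn F id {x | x ∈ l} →
      ∃ v, LinearIndepOn F id {x | x ∈ v :: l} ∧ v ∉ l := by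
    intro l hl
    have h1 : ∃ v, v ∉ span F {x | x ∈ l} := by
      by_contra hcon
      push Not at hcon
      apply hinf
      have h2 : span F {x | x ∈ l} = ⊤ := by rw [eq_top_iff]; intro v _; exact hcon v
      have h3 : ({x | x ∈ l} : Set V).Finite := l.finite_toSet
      have h4 : (⊤ : Submodule F V).FG := by
        rw [← h2]; exact Submodule.fg_span h3
      exact Module.finite_def.2 h4
    obtain ⟨v, hv⟩ := h1
    refine ⟨v, ?_, fun h => hv (subset_span h)⟩
    have h2 : {x | x ∈ v :: l} = insert v {x | x ∈ l} := by ext x; simp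
    rw [h2]
    exact hl.id_insert hv
  have hgood : ∀ n, ∃ l, l ∈ st n ∧ LinearIndepOn F id {x | x ∈ l} := by
    intro n
    induction n with
    | zero =>
      refine ⟨[], Part.mem_some _, ?_⟩
      have h1 : {x : V | x ∈ ([] : List V)} = ∅ := by ext x; simp
      rw [h1]
      exact linearIndepOn_empty F id
    | succ n ih =>
      obtain ⟨l, hl, hI⟩ := ih
      have hd : (nxt l).Dom := (hdom l).2 (hex l hI)
      refine ⟨(nxt l).get hd :: l, ?_, ?_⟩
      · show _ ∈ (st n).bind fun i => (nxt i).map (fun v => v :: i)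
        exact Part.mem_bind hl (Part.mem_map _ (Part.get_mem hd))
      · exact (hspec l _ (Part.get_mem hd)).1
  choose H hH hI using hgood
  have hHc : Computable H := hst.of_eq_tot hH
  have hstep : ∀ n, ∃ v, H (n + 1) = v :: H n ∧ v ∉ H n := by
    intro s
    have h1 : H (s + 1) ∈ (st s).bind fun i => (nxt i).map (fun v => v :: i) := hH (s + 1)
    obtain ⟨i, hi, hi2⟩ := Part.mem_bind_iff.1 h1
    have h2 : i = H s := Part.mem_unique hi (hH s)
    subst h2
    obtain ⟨v, hv, hv2⟩ := (Part.mem_map_iff _).1 hi2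
    exact ⟨v, hv2.symm, (hspec _ _ hv).2⟩
  choose b hb hb' using hstep
  have hlt : ∀ n k, k < n → b k ∈ H n := by
    intro n
    induction n with
    | zero => intro k hk; omega
    | succ n ih =>
      intro k hk
      rw [hb n]
      rcases Nat.lt_succ_iff_lt_or_eq.1 hk with h | h
      · exact List.mem_cons_of_mem _ (ih k h)
      · subst h; exact List.mem_cons_self
  have hinj : Function.Injective b := by
    intro i j hij
    by_contra hne
    rcases lt_or_gt_of_ne hne with h | h
    · exact hb' j (hij ▸ hlt j i h)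
    · exact hb' i (hij ▸ hlt i j h)
  refine ⟨b, ?_, ?_⟩
  · have h1 : Computable fun n => (H (n + 1)).head?.getD 0 := by
      have h2 : Computable fun n => (H (n + 1)).head? :=
        Primrec.list_head?.to_comp.comp (hHc.comp (by fun_prop))
      exact Computable.option_getD h2 (Computable.const 0)
    refine h1.of_eq fun n => ?_
    rw [hb n]; rfl
  · rw [linearIndependent_iff_finset_linearIndependent]
    intro s
    obtain ⟨n, hn⟩ : ∃ n, ∀ i ∈ s, i < n := ⟨s.sup id + 1, fun i hi =>
      Nat.lt_succ_of_le (Finset.le_sup (f := id) hi)⟩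
    have h1 := (hI n)
    have h2 : Function.Injective (fun i : s => (⟨b i, hlt n i (hn i i.2)⟩ : {x | x ∈ H n})) := by
      intro i j hij
      exact Subtype.ext (hinj (congrArg Subtype.val hij))
    exact LinearIndependent.comp h1 _ h2

section

variable {m : ℕ}

theorem rws_list (Rl : Finset (FreeGroup (Fin m))) :
    ∃ l : List (List (Fin m × Bool)), ∀ r, rws (Rl : Set (FreeGroup (Fin m))) r ↔ r ∈ l := by
  refine ⟨Rl.toList.map FreeGroup.toWord ++
    (Finset.univ : Finset (Fin m × Bool)).toList.map (fun x => [(x.1, x.2), (x.1, !x.2)]),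
    fun r => ?_⟩
  unfold rws
  rw [List.mem_append, List.mem_map, List.mem_map]
  constructor
  · rintro (⟨g, hg, rfl⟩ | ⟨i, b, rfl⟩)
    · exact Or.inl ⟨g, by simpa using hg, rfl⟩
    · exact Or.inr ⟨(i, b), by simp, rfl⟩
  · rintro (⟨g, hg, rfl⟩ | ⟨⟨i, b⟩, -, rfl⟩)
    · exact Or.inl ⟨g, by simpa using hg, rfl⟩
    · exact Or.inr ⟨i, b, rfl⟩

theorem re_DD (hadd : Computable₂ fun x y : V => x + y)
    (hsmul : Computable₂ fun (c : F) (x : V) => c • x)
    {Rl : Set (FreeGroup (Fin m))} {l : List (List (Fin m × Bool))} (hl : ∀ r, rws Rl r ↔ r ∈ l)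
    {e : Fin 3 × ℕ × List (Fin m × Bool) → V} (he : Computable e) :
    REPred (· ∈ (DD Rl e : Submodule F V)) := by
  unfold DD
  apply re_span hadd hsmul
  have hsub : Computable₂ fun x y : V => x - y := by
    have h1 : Computable fun p : V × V => p.1 + (-1 : F) • p.2 :=
      hadd.comp (by fun_prop) (hsmul.comp (by fun_prop) (by fun_prop))
    refine h1.of_eq fun p => ?_
    rw [neg_one_smul, ← sub_eq_add_neg]
  have h1 : REPred fun v : V => ∃ q : (Fin 3 × ℕ) × (List (Fin m × Bool) ×
      (List (Fin m × Bool) × List (Fin m × Bool))), q.2.2.1 ∈ l ∧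
      v = e (q.1.1, q.1.2, q.2.1 ++ (q.2.2.1 ++ q.2.2.2)) - e (q.1.1, q.1.2, q.2.1 ++ q.2.2.2) := by
    refine ex (p := fun (v : V) (q : (Fin 3 × ℕ) × (List (Fin m × Bool) ×
      (List (Fin m × Bool) × List (Fin m × Bool)))) => q.2.2.1 ∈ l ∧
      v = e (q.1.1, q.1.2, q.2.1 ++ (q.2.2.1 ++ q.2.2.2)) -
        e (q.1.1, q.1.2, q.2.1 ++ q.2.2.2)) ?_
    refine RE.and (mem_list (by fun_prop) (by fun_prop)) (RE.eq (by fun_prop) ?_)
    exact hsub.comp (by fun_prop) (by fun_prop)
  refine h1.of_eq fun v => ?_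
  constructor
  · rintro ⟨⟨⟨j, n⟩, x, r, y⟩, h1, h2⟩
    exact ⟨j, n, x, r, y, (hl r).2 h1, h2⟩
  · rintro ⟨j, n, x, r, y, h1, h2⟩
    exact ⟨⟨⟨j, n⟩, x, r, y⟩, (hl r).1 h1, h2⟩

theorem re_range (hadd : Computable₂ fun x y : V => x + y)
    (hsmul : Computable₂ fun (c : F) (x : V) => c • x)
    {D : Submodule F V} (hD : REPred (· ∈ D)) {f : ℕ × List (Fin m × Bool) → V}
    (hf : Computable f) :
    REPred (· ∈ span F (Set.range f) ⊔ D) := by
  refine re_sup hadd (re_span hadd hsmul ?_) hD
  refine (ex (p := fun (v : V) (p : ℕ × List (Fin m × Bool)) => f p = v) ?_).of_eq fun v => Iff.rfl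
  exact RE.eq (by fun_prop) (by fun_prop)


end

end Pool.Agent.Helper446.LS
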