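import Mathlib

set_option autoImplicit false

/-!
The lattice of subspaces modulo finite dimension, embedded in a lattice of subspaces.
-/

namespace Pool.Agent.Helper446.LS

open Submodule

variable {F V : Type*} [Field F] [AddCommGroup V] [Module F V]

variable (F V) in
/-- Sequences with values in a finite-dimensional subspace. -/
def bdd : Submodule F (ℕ → V) where
  carrier := {s | ∃ U : Submodule F V, FiniteDimensional F U ∧ ∀ n, s n ∈ U}
  add_mem' := by
    rintro s t ⟨U, hU, h⟩ ⟨U', hU', h'⟩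
    exact ⟨U ⊔ U', inferInstance, fun n =>
      (U ⊔ U').add_mem (mem_sup_left (h n)) (mem_sup_right (h' n))⟩
  zero_mem' := ⟨⊥, inferInstance, fun n => Submodule.zero_mem _⟩
  smul_mem' := by
    rintro c s ⟨U, hU, h⟩
    exact ⟨U, hU, fun n => U.smul_mem c (h n)⟩

theorem mem_bdd {s : ℕ → V} :
    s ∈ bdd F V ↔ ∃ U : Submodule F V, FiniteDimensional F U ∧ ∀ n, s n ∈ U := Iff.rfl

/-- The embedding. -/
def J (W : Submodule F V) : Submodule F (ℕ → V) := Submodule.pi Set.univ (fun _ => W) ⊔ bdd F V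

theorem mem_J {W : Submodule F V} {s : ℕ → V} :
    s ∈ J W ↔ ∃ b ∈ bdd F V, ∀ n, s n - b n ∈ W := by
  unfold J
  constructor
  · intro h
    obtain ⟨w, hw, b, hb, rfl⟩ := mem_sup.1 h
    refine ⟨b, hb, fun n => ?_⟩
    have := hw n (Set.mem_univ n)
    simpa using this
  · rintro ⟨b, hb, h⟩
    refine mem_sup.2 ⟨s - b, fun n _ => h n, b, hb, by abel⟩

theorem J_mono {W W' : Submodule F V} (h : W ≤ W') : J W ≤ J W' := by
  intro s hs
  obtain ⟨b, hb, h1⟩ := mem_J.1 hs
  exact mem_J.2 ⟨b, hb, fun n => h (h1 n)⟩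

theorem J_sup (W W' : Submodule F V) : J (W ⊔ W') = J W ⊔ J W' := by
  apply le_antisymm
  · intro s hs
    obtain ⟨b, hb, h1⟩ := mem_J.1 hs
    have h2 : ∀ n, ∃ x ∈ W, ∃ y ∈ W', x + y = s n - b n := fun n => mem_sup.1 (h1 n)
    choose x hx y hy hxy using h2
    refine mem_sup.2 ⟨x + b, mem_J.2 ⟨b, hb, fun n => ?_⟩, y, mem_J.2 ⟨0, zero_mem _,
      fun n => ?_⟩, ?_⟩
    · simpa using hx n
    · simpa using hy n
    · funext n
      have := hxy n
      simp only [Pi.add_apply]
      rw [add_right_comm, this]; abel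
  · exact sup_le (J_mono le_sup_left) (J_mono le_sup_right)

theorem J_inf (W W' : Submodule F V) : J (W ⊓ W') = J W ⊓ J W' := by
  apply le_antisymm
  · exact le_inf (J_mono inf_le_left) (J_mono inf_le_right)
  · rintro s ⟨h, h'⟩
    obtain ⟨b, ⟨U, hU, hb⟩, h1⟩ := mem_J.1 h
    obtain ⟨b', ⟨U', hU', hb'⟩, h1'⟩ := mem_J.1 h'
    -- split the difference linearly
    let f : (W × W') →ₗ[F] V := W.subtype.coprod (-W'.subtype)
    obtain ⟨σ, hσ⟩ := f.rangeRestrict.exists_rightInverse_of_surjective f.range_rangeRestrict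
    have hσ' : ∀ d : LinearMap.range f, ((σ d).1 : V) - ((σ d).2 : V) = d := by
      intro d
      have := congrArg Subtype.val (LinearMap.congr_fun hσ d)
      simp only [LinearMap.coe_comp, Function.comp_apply, LinearMap.id_coe, id_eq] at this
      rw [← this]
      simp [f, sub_eq_add_neg]
    have hd : ∀ n, (s n - b n) - (s n - b' n) ∈ LinearMap.range f := by
      intro n
      refine ⟨(⟨_, h1 n⟩, ⟨_, h1' n⟩), ?_⟩
      simp [f, sub_eq_add_neg]
    let D : Submodule F V := U ⊔ U'
    have hdD : ∀ n, (s n - b n) - (s n - b' n) ∈ D := by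
      intro n
      have : (s n - b n) - (s n - b' n) = b' n - b n := by abel
      rw [this]
      exact D.sub_mem (mem_sup_right (hb' n)) (mem_sup_left (hb n))
    let K : Submodule F V :=
      (D.comap (LinearMap.range f).subtype).map (W.subtype ∘ₗ LinearMap.fst F W W' ∘ₗ σ)
    have hK : FiniteDimensional F K := by
      have : FiniteDimensional F (D.comap (LinearMap.range f).subtype) := by
        have h3 : Function.Injective
            ((LinearMap.range f).subtype.restrict
              (p := D.comap (LinearMap.range f).subtype) (q := D) (fun x hx => hx)) := by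
          intro x y hxy
          apply Subtype.ext
          apply Subtype.ext
          exact congrArg (fun y : D => (y : V)) hxy
        exact FiniteDimensional.of_injective _ h3
      infer_instance
    refine mem_J.2 ⟨fun n => b n + (W.subtype ∘ₗ LinearMap.fst F W W' ∘ₗ σ) ⟨_, hd n⟩,
      ⟨U ⊔ K, inferInstance, fun n => ?_⟩, fun n => ⟨?_, ?_⟩⟩
    · refine add_mem (mem_sup_left (hb n)) (mem_sup_right ?_)
      exact ⟨⟨_, hd n⟩, hdD n, rfl⟩
    · have e : s n - (b n + (W.subtype ∘ₗ LinearMap.fst F W W' ∘ₗ σ) ⟨_, hd n⟩) =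
          (s n - b n) - ((σ ⟨_, hd n⟩).1 : V) := by
        simp only [LinearMap.coe_comp, Function.comp_apply, subtype_apply, LinearMap.fst_apply]
        abel
      rw [e]
      exact W.sub_mem (h1 n) (σ ⟨_, hd n⟩).1.2
    · have e : s n - (b n + (W.subtype ∘ₗ LinearMap.fst F W W' ∘ₗ σ) ⟨_, hd n⟩) =
          (s n - b' n) - ((σ ⟨_, hd n⟩).2 : V) := by
        have h4 : ((σ ⟨_, hd n⟩).1 : V) - ((σ ⟨_, hd n⟩).2 : V) =
          (s n - b n) - (s n - b' n) := hσ' ⟨_, hd n⟩
        simp only [LinearMap.coe_comp, Function.comp_apply, subtype_apply, LinearMap.fst_apply]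
        have h5 := sub_eq_iff_eq_add'.1 h4
        rw [h5]; abel
      rw [e]
      exact W'.sub_mem (h1' n) (σ ⟨_, hd n⟩).2.2

theorem J_le_iff {W W' : Submodule F V} :
    J W ≤ J W' ↔ ∃ U : Submodule F V, FiniteDimensional F U ∧ W ≤ W' ⊔ U := by
  constructor
  · intro h
    let f : W →ₗ[F] (V ⧸ W') := W'.mkQ ∘ₗ W.subtype
    have hfd : FiniteDimensional F (LinearMap.range f) := by
      by_contra hcon
      let B := Module.Basis.ofVectorSpace F (LinearMap.range f)
      have hinf : Infinite (Module.Basis.ofVectorSpaceIndex F (LinearMap.range f)) := by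
        by_contra h2
        rw [not_infinite_iff_finite] at h2
        exact hcon (Module.Finite.of_basis B)
      let em := Infinite.natEmbedding (Module.Basis.ofVectorSpaceIndex F (LinearMap.range f))
      have h2 : ∀ n, ∃ x : W, f x = B (em n) := fun n => (B (em n)).2
      choose x hx using h2
      have h3 : (fun n => (x n : V)) ∈ J W := mem_J.2 ⟨0, zero_mem _, fun n => by simp⟩
      obtain ⟨b, ⟨U, hU, hb⟩, h4⟩ := mem_J.1 (h h3)
      have h5 : ∀ n, W'.mkQ (b n) = B (em n) := by
        intro n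
        rw [← hx n]
        have := (Submodule.Quotient.mk_eq_zero W').2 (h4 n)
        rw [Submodule.Quotient.mk_sub, sub_eq_zero] at this
        exact this.symm
      have hli : LinearIndependent F (fun n => W'.mkQ (b n)) := by
        have h6 : LinearIndependent F (fun n => (LinearMap.range f).subtype (B (em n))) :=
          (B.linearIndependent.comp em em.injective).map' _ (ker_subtype _)
        convert h6 using 2 with n
        exact h5 n
      have h7 : LinearIndependent F
          (fun n => (⟨W'.mkQ (b n), mem_map_of_mem (hb n)⟩ : U.map W'.mkQ)) :=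
        LinearIndependent.of_comp (U.map W'.mkQ).subtype hli
      have h8 := h7.finite
      exact not_finite ℕ
    obtain ⟨σ, hσ⟩ := f.rangeRestrict.exists_rightInverse_of_surjective f.range_rangeRestrict
    refine ⟨LinearMap.range (W.subtype ∘ₗ σ), inferInstance, ?_⟩
    intro w hw
    have h1 : f (σ (f.rangeRestrict ⟨w, hw⟩)) = f ⟨w, hw⟩ := by
      have := congrArg Subtype.val (LinearMap.congr_fun hσ (f.rangeRestrict ⟨w, hw⟩))
      exact this
    have h2 : w - (W.subtype ∘ₗ σ) (f.rangeRestrict ⟨w, hw⟩) ∈ W' := by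
      rw [← Submodule.Quotient.mk_eq_zero W', Submodule.Quotient.mk_sub, sub_eq_zero]
      exact h1.symm
    have : w = (w - (W.subtype ∘ₗ σ) (f.rangeRestrict ⟨w, hw⟩)) +
      (W.subtype ∘ₗ σ) (f.rangeRestrict ⟨w, hw⟩) := by abel
    rw [this]
    exact add_mem_sup h2 ⟨_, rfl⟩
  · rintro ⟨U, hU, h⟩ s hs
    have h1 : J (W' ⊔ U) ≤ J W' := by
      rw [J_sup]
      refine sup_le le_rfl ?_
      intro s hs
      obtain ⟨b, ⟨U', hU', hb⟩, h2⟩ := mem_J.1 hs
      refine mem_J.2 ⟨s, ⟨U ⊔ U', inferInstance, fun n => ?_⟩, fun n => by simp⟩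
      have : s n = (s n - b n) + b n := by abel
      rw [this]
      exact add_mem_sup (h2 n) (hb n)
    exact h1 (J_mono h hs)

/-- Equality modulo finite dimension. -/
def StarEq (W W' : Submodule F V) : Prop :=
  ∃ U : Submodule F V, FiniteDimensional F U ∧ W ⊔ U = W' ⊔ U

theorem J_eq_iff {W W' : Submodule F V} :
    J W = J W' ↔ ∃ U : Submodule F V, FiniteDimensional F U ∧ W ⊔ U = W' ⊔ U := by
  constructor
  · intro h
    obtain ⟨U, hU, h1⟩ := J_le_iff.1 h.le
    obtain ⟨U', hU', h2⟩ := J_le_iff.1 h.ge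
    refine ⟨U ⊔ U', inferInstance, le_antisymm ?_ ?_⟩
    · refine sup_le (h1.trans ?_) le_sup_right
      exact sup_le_sup_left le_sup_left _
    · refine sup_le (h2.trans ?_) le_sup_right
      exact sup_le_sup_left le_sup_right _
  · rintro ⟨U, hU, h⟩
    apply le_antisymm
    · exact J_le_iff.2 ⟨U, hU, h ▸ le_sup_left⟩
    · exact J_le_iff.2 ⟨U, hU, h ▸ le_sup_left⟩

end Pool.Agent.Helper446.LS
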