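import Pool.Agent.Helper446.LS.Mon

set_option autoImplicit false

/-!
The standard frame in the lattice of submodules of `Y × Y × Y`.
-/

namespace Pool.Agent.Helper446.LS

open Submodule

section Map

variable {L L' : Type*} [Min L] [Max L] [Min L'] [Max L'] (f : L → L')
  (hi : ∀ x y, f (x ⊓ y) = f x ⊓ f y) (hs : ∀ x y, f (x ⊔ y) = f x ⊔ f y)

include hi hs

theorem cmp_map (a1 a2 a3 c12 c23 p g : L) :
    f (cmp a1 a2 a3 c12 c23 p g) = cmp (f a1) (f a2) (f a3) (f c12) (f c23) (f p) (f g) := by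
  simp only [cmp, hi, hs]

theorem wd_map {ι : Type*} (a1 a2 a3 c12 c23 : L) (g : ι → L) (w : List ι) :
    f (wd a1 a2 a3 c12 c23 g w) = wd (f a1) (f a2) (f a3) (f c12) (f c23) (fun x => f (g x)) w := by
  induction w with
  | nil => rfl
  | cons x w ih =>
    change f (cmp a1 a2 a3 c12 c23 (g x) (wd a1 a2 a3 c12 c23 g w)) = _
    rw [cmp_map f hi hs, ih]
    rfl

theorem Frm.map {z a1 a2 a3 c12 c23 : L} (h : Frm z a1 a2 a3 c12 c23) :
    Frm (f z) (f a1) (f a2) (f a3) (f c12) (f c23) where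
  h1 := by rw [← hi, h.h1]
  h2 := by rw [← hi, h.h2]
  h3 := by rw [← hi, h.h3]
  h4 := by rw [← hi, h.h4]
  h5 := by rw [← hi, h.h5]
  h6 := by rw [← hs, ← hi, h.h6]
  h7 := by rw [← hs, ← hi, h.h7]
  i1 := by rw [← hs, ← hi, h.i1]
  i2 := by rw [← hs, ← hi, h.i2]
  i3 := by rw [← hs, ← hi, h.i3]
  k1 := by rw [← hi, h.k1]
  k2 := by rw [← hi, h.k2]
  k3 := by rw [← hi, h.k3]
  t1 := by rw [← hs, ← hs, h.t1]
  t2 := by rw [← hs, ← hs, h.t2]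
  t3 := by rw [← hs, ← hs, h.t3]

theorem Frm.of_map (hf : Function.Injective f) {z a1 a2 a3 c12 c23 : L}
    (h : Frm (f z) (f a1) (f a2) (f a3) (f c12) (f c23)) : Frm z a1 a2 a3 c12 c23 where
  h1 := hf (by rw [hi, h.h1])
  h2 := hf (by rw [hi, h.h2])
  h3 := hf (by rw [hi, h.h3])
  h4 := hf (by rw [hi, h.h4])
  h5 := hf (by rw [hi, h.h5])
  h6 := hf (by rw [hi, hs, h.h6])
  h7 := hf (by rw [hi, hs, h.h7])
  i1 := hf (by rw [hi, hs, h.i1])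
  i2 := hf (by rw [hi, hs, h.i2])
  i3 := hf (by rw [hi, hs, h.i3])
  k1 := hf (by rw [hi, h.k1])
  k2 := hf (by rw [hi, h.k2])
  k3 := hf (by rw [hi, h.k3])
  t1 := hf (by rw [hs, hs, h.t1])
  t2 := hf (by rw [hs, hs, h.t2])
  t3 := hf (by rw [hs, hs, h.t3])

end Map

section Model

variable {F Y : Type*} [Field F] [AddCommGroup Y] [Module F Y]

variable (F Y) in
/-- First coordinate map. -/
def i1 : Y →ₗ[F] (Y × Y × Y) := LinearMap.prod LinearMap.id (LinearMap.prod 0 0)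
variable (F Y) in
/-- Second coordinate map. -/
def i2 : Y →ₗ[F] (Y × Y × Y) := LinearMap.prod 0 (LinearMap.prod LinearMap.id 0)
variable (F Y) in
/-- Third coordinate map. -/
def i3 : Y →ₗ[F] (Y × Y × Y) := LinearMap.prod 0 (LinearMap.prod 0 LinearMap.id)
variable (F Y) in
/-- The second diagonal. -/
def d23 : Y →ₗ[F] (Y × Y × Y) := LinearMap.prod 0 (LinearMap.prod LinearMap.id (-LinearMap.id))
/-- The graph map. -/
def ga (T : Y →ₗ[F] Y) : Y →ₗ[F] (Y × Y × Y) :=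
  LinearMap.prod LinearMap.id (LinearMap.prod (-T) 0)

@[simp] theorem i1_apply (y : Y) : i1 F Y y = (y, 0, 0) := rfl
@[simp] theorem i2_apply (y : Y) : i2 F Y y = (0, y, 0) := rfl
@[simp] theorem i3_apply (y : Y) : i3 F Y y = (0, 0, y) := rfl
@[simp] theorem d23_apply (y : Y) : d23 F Y y = (0, y, -y) := rfl
@[simp] theorem ga_apply (T : Y →ₗ[F] Y) (y : Y) : ga T y = (y, -T y, 0) := rfl

theorem mem_i1 {x y w : Y} : (x, y, w) ∈ LinearMap.range (i1 F Y) ↔ y = 0 ∧ w = 0 := by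
  constructor
  · rintro ⟨t, ht⟩
    simp only [i1_apply, Prod.mk.injEq] at ht
    exact ⟨ht.2.1.symm, ht.2.2.symm⟩
  · rintro ⟨rfl, rfl⟩; exact ⟨x, rfl⟩

theorem mem_i2 {x y w : Y} : (x, y, w) ∈ LinearMap.range (i2 F Y) ↔ x = 0 ∧ w = 0 := by
  constructor
  · rintro ⟨t, ht⟩
    simp only [i2_apply, Prod.mk.injEq] at ht
    exact ⟨ht.1.symm, ht.2.2.symm⟩
  · rintro ⟨rfl, rfl⟩; exact ⟨y, rfl⟩

theorem mem_i3 {x y w : Y} : (x, y, w) ∈ LinearMap.range (i3 F Y) ↔ x = 0 ∧ y = 0 := by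
  constructor
  · rintro ⟨t, ht⟩
    simp only [i3_apply, Prod.mk.injEq] at ht
    exact ⟨ht.1.symm, ht.2.1.symm⟩
  · rintro ⟨rfl, rfl⟩; exact ⟨w, rfl⟩

theorem mem_d23 {x y w : Y} : (x, y, w) ∈ LinearMap.range (d23 F Y) ↔ x = 0 ∧ w = -y := by
  constructor
  · rintro ⟨t, ht⟩
    simp only [d23_apply, Prod.mk.injEq] at ht
    obtain ⟨h1, rfl, h3⟩ := ht
    exact ⟨h1.symm, h3.symm⟩
  · rintro ⟨rfl, rfl⟩; exact ⟨y, rfl⟩

theorem mem_ga {T : Y →ₗ[F] Y} {x y w : Y} :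
    (x, y, w) ∈ LinearMap.range (ga T) ↔ y = -T x ∧ w = 0 := by
  constructor
  · rintro ⟨t, ht⟩
    simp only [ga_apply, Prod.mk.injEq] at ht
    obtain ⟨rfl, h2, h3⟩ := ht
    exact ⟨h2.symm, h3.symm⟩
  · rintro ⟨rfl, rfl⟩; exact ⟨x, rfl⟩

theorem mem_s12 {x y w : Y} :
    (x, y, w) ∈ LinearMap.range (i1 F Y) ⊔ LinearMap.range (i2 F Y) ↔ w = 0 := by
  constructor
  · intro h
    obtain ⟨⟨x1, y1, w1⟩, h1, ⟨x2, y2, w2⟩, h2, h3⟩ := mem_sup.1 h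
    rw [mem_i1] at h1
    rw [mem_i2] at h2
    simp only [Prod.mk_add_mk, Prod.mk.injEq] at h3
    rw [← h3.2.2, h1.2, h2.2, add_zero]
  · rintro rfl
    have : (x, y, (0 : Y)) = (x, 0, 0) + (0, y, 0) := by simp
    rw [this]
    exact add_mem_sup (mem_i1.2 ⟨rfl, rfl⟩) (mem_i2.2 ⟨rfl, rfl⟩)

theorem mem_s13 {x y w : Y} :
    (x, y, w) ∈ LinearMap.range (i1 F Y) ⊔ LinearMap.range (i3 F Y) ↔ y = 0 := by
  constructor
  · intro h
    obtain ⟨⟨x1, y1, w1⟩, h1, ⟨x2, y2, w2⟩, h2, h3⟩ := mem_sup.1 h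
    rw [mem_i1] at h1
    rw [mem_i3] at h2
    simp only [Prod.mk_add_mk, Prod.mk.injEq] at h3
    rw [← h3.2.1, h1.1, h2.2, add_zero]
  · rintro rfl
    have : (x, (0 : Y), w) = (x, 0, 0) + (0, 0, w) := by simp
    rw [this]
    exact add_mem_sup (mem_i1.2 ⟨rfl, rfl⟩) (mem_i3.2 ⟨rfl, rfl⟩)

theorem mem_s23 {x y w : Y} :
    (x, y, w) ∈ LinearMap.range (i2 F Y) ⊔ LinearMap.range (i3 F Y) ↔ x = 0 := by
  constructor
  · intro h
    obtain ⟨⟨x1, y1, w1⟩, h1, ⟨x2, y2, w2⟩, h2, h3⟩ := mem_sup.1 h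
    rw [mem_i2] at h1
    rw [mem_i3] at h2
    simp only [Prod.mk_add_mk, Prod.mk.injEq] at h3
    rw [← h3.1, h1.1, h2.1, add_zero]
  · rintro rfl
    have : ((0 : Y), y, w) = (0, y, 0) + (0, 0, w) := by simp
    rw [this]
    exact add_mem_sup (mem_i2.2 ⟨rfl, rfl⟩) (mem_i3.2 ⟨rfl, rfl⟩)

theorem frm_model : Frm (⊥ : Submodule F (Y × Y × Y)) (LinearMap.range (i1 F Y))
    (LinearMap.range (i2 F Y)) (LinearMap.range (i3 F Y))
    (LinearMap.range (ga (LinearMap.id : Y →ₗ[F] Y))) (LinearMap.range (d23 F Y)) where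
  h1 := bot_inf_eq _
  h2 := bot_inf_eq _
  h3 := bot_inf_eq _
  h4 := bot_inf_eq _
  h5 := bot_inf_eq _
  h6 := by
    rw [inf_eq_left]
    rintro ⟨x, y, w⟩ h
    rw [mem_s12]
    exact (mem_ga.1 h).2
  h7 := by
    rw [inf_eq_left]
    rintro ⟨x, y, w⟩ h
    rw [mem_s23]
    exact (mem_d23.1 h).1
  i1 := by
    rw [eq_bot_iff]
    rintro ⟨x, y, w⟩ ⟨h, h'⟩
    rw [SetLike.mem_coe, mem_s12] at h
    rw [SetLike.mem_coe, mem_i3] at h'
    obtain ⟨h1, h2⟩ := h'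
    subst h h1 h2
    rfl
  i2 := by
    rw [eq_bot_iff]
    rintro ⟨x, y, w⟩ ⟨h, h'⟩
    rw [SetLike.mem_coe, mem_s13] at h
    rw [SetLike.mem_coe, mem_i2] at h'
    obtain ⟨h1, h2⟩ := h'
    subst h h1 h2
    rfl
  i3 := by
    rw [eq_bot_iff]
    rintro ⟨x, y, w⟩ ⟨h, h'⟩
    rw [SetLike.mem_coe, mem_s23] at h
    rw [SetLike.mem_coe, mem_i1] at h'
    obtain ⟨h1, h2⟩ := h'
    subst h h1 h2
    rfl
  k1 := by
    rw [eq_bot_iff]
    rintro ⟨x, y, w⟩ ⟨h, h'⟩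
    rw [SetLike.mem_coe, mem_ga] at h
    rw [SetLike.mem_coe, mem_i1] at h'
    obtain ⟨h1, h2⟩ := h'
    subst h1 h2
    have : x = 0 := by simpa using h.1.symm
    subst this
    rfl
  k2 := by
    rw [eq_bot_iff]
    rintro ⟨x, y, w⟩ ⟨h, h'⟩
    rw [SetLike.mem_coe, mem_ga] at h
    rw [SetLike.mem_coe, mem_i2] at h'
    obtain ⟨h1, h2⟩ := h'
    subst h1 h2
    have : y = 0 := by simpa using h.1
    subst this
    rfl
  k3 := by
    rw [eq_bot_iff]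
    rintro ⟨x, y, w⟩ ⟨h, h'⟩
    rw [SetLike.mem_coe, mem_d23] at h
    rw [SetLike.mem_coe, mem_i2] at h'
    obtain ⟨h1, h2⟩ := h'
    subst h1 h2
    have : y = 0 := by simpa using h.2.symm
    subst this
    rfl
  t1 := by
    ext ⟨x, y, w⟩
    rw [mem_s12]
    constructor
    · intro h
      obtain ⟨⟨x1, y1, w1⟩, h1, ⟨x2, y2, w2⟩, h2, h3⟩ := mem_sup.1 h
      rw [mem_ga] at h1
      rw [mem_i2] at h2
      simp only [Prod.mk_add_mk, Prod.mk.injEq] at h3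
      rw [← h3.2.2, h1.2, h2.2, add_zero]
    · rintro rfl
      have : (x, y, (0 : Y)) = (x, -x, 0) + (0, y + x, 0) := by simp
      rw [this]
      exact add_mem_sup (mem_ga.2 ⟨rfl, rfl⟩) (mem_i2.2 ⟨rfl, rfl⟩)
  t2 := by
    ext ⟨x, y, w⟩
    rw [mem_s12]
    constructor
    · intro h
      obtain ⟨⟨x1, y1, w1⟩, h1, ⟨x2, y2, w2⟩, h2, h3⟩ := mem_sup.1 h
      rw [mem_ga] at h1
      rw [mem_i1] at h2
      simp only [Prod.mk_add_mk, Prod.mk.injEq] at h3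
      rw [← h3.2.2, h1.2, h2.2, add_zero]
    · rintro rfl
      have : (x, y, (0 : Y)) = (-y, y, 0) + (x + y, 0, 0) := by simp
      rw [this]
      exact add_mem_sup (mem_ga.2 ⟨by simp, rfl⟩) (mem_i1.2 ⟨rfl, rfl⟩)
  t3 := by
    ext ⟨x, y, w⟩
    rw [mem_s23]
    constructor
    · intro h
      obtain ⟨⟨x1, y1, w1⟩, h1, ⟨x2, y2, w2⟩, h2, h3⟩ := mem_sup.1 h
      rw [mem_d23] at h1
      rw [mem_i3] at h2
      simp only [Prod.mk_add_mk, Prod.mk.injEq] at h3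
      rw [← h3.1, h1.1, h2.1, add_zero]
    · rintro rfl
      have : ((0 : Y), y, w) = (0, y, -y) + (0, 0, w + y) := by simp
      rw [this]
      exact add_mem_sup (mem_d23.2 ⟨rfl, rfl⟩) (mem_i3.2 ⟨rfl, rfl⟩)

theorem cmp_ga (S T : Y →ₗ[F] Y) : cmp (LinearMap.range (i1 F Y))
    (LinearMap.range (i2 F Y)) (LinearMap.range (i3 F Y))
    (LinearMap.range (ga (LinearMap.id : Y →ₗ[F] Y))) (LinearMap.range (d23 F Y))
    (LinearMap.range (ga S)) (LinearMap.range (ga T)) = LinearMap.range (ga (T ∘ₗ S)) := by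
  have hb : ∀ T : Y →ₗ[F] Y, LinearMap.range (ga T) ≤
      LinearMap.range (i1 F Y) ⊔ LinearMap.range (i2 F Y) := by
    rintro T ⟨x, y, w⟩ h
    rw [mem_s12]
    exact (mem_ga.1 h).2
  refine gr_ext frm_model (cmp_bounds frm_model bot_le).2 (hb _) ?_
  rintro _ ⟨v, rfl⟩ _ ⟨v', rfl⟩
  rw [mem_cmp frm_model bot_le (hb _) bot_le (hb _) ⟨v, rfl⟩ ⟨v', rfl⟩]
  simp only [i1_apply, i2_apply, Prod.mk_sub_mk, sub_zero, zero_sub, mem_ga, and_true, neg_inj]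
  constructor
  · rintro ⟨_, ⟨α, rfl⟩, _, ⟨β, rfl⟩, h1, h2, h3⟩
    simp only [i1_apply, i2_apply, Prod.mk_sub_mk, sub_zero, zero_sub, mem_ga, and_true,
      neg_inj, LinearMap.id_apply] at h1 h2 h3
    rw [h3, ← h2, h1]
    rfl
  · intro h
    refine ⟨_, ⟨S v, rfl⟩, _, ⟨S v, rfl⟩, ?_, ?_, ?_⟩
    · simp only [i2_apply, Prod.mk_sub_mk, sub_zero, zero_sub, mem_ga, and_true]
    · simp only [i1_apply, i2_apply, Prod.mk_sub_mk, sub_zero, zero_sub, mem_ga, and_true,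
        LinearMap.id_apply]
    · simp only [i1_apply, Prod.mk_sub_mk, sub_zero, zero_sub, mem_ga, and_true, neg_inj, h,
        LinearMap.comp_apply]

end Model

end Pool.Agent.Helper446.LS
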