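import Mathlib

set_option autoImplicit false

/-!
Composition of graphs by lattice polynomials in lattices of submodules.
-/

namespace Pool.Agent.Helper446.LS

/-- The composition polynomial. -/
def cmp {L : Type*} [Min L] [Max L] (a1 a2 a3 c12 c23 p g : L) : L :=
  (((p ⊔ c23) ⊓ (a1 ⊔ a3)) ⊔ ((((c12 ⊔ c23) ⊓ (a1 ⊔ a3)) ⊔ g) ⊓ (a2 ⊔ a3))) ⊓ (a1 ⊔ a2)

/-- The polynomial of a word. -/
def wd {L ι : Type*} [Min L] [Max L] (a1 a2 a3 c12 c23 : L) (g : ι → L) (w : List ι) : L :=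
  w.foldr (fun x acc => cmp a1 a2 a3 c12 c23 (g x) acc) c12

/-- The conditions on a frame, written as equations. -/
structure Frm {L : Type*} [Min L] [Max L] (z a1 a2 a3 c12 c23 : L) : Prop where
  h1 : z ⊓ a1 = z
  h2 : z ⊓ a2 = z
  h3 : z ⊓ a3 = z
  h4 : z ⊓ c12 = z
  h5 : z ⊓ c23 = z
  h6 : c12 ⊓ (a1 ⊔ a2) = c12
  h7 : c23 ⊓ (a2 ⊔ a3) = c23
  i1 : (a1 ⊔ a2) ⊓ a3 = z
  i2 : (a1 ⊔ a3) ⊓ a2 = z
  i3 : (a2 ⊔ a3) ⊓ a1 = z
  k1 : c12 ⊓ a1 = z
  k2 : c12 ⊓ a2 = z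
  k3 : c23 ⊓ a2 = z
  t1 : c12 ⊔ a2 = a1 ⊔ a2
  t2 : c12 ⊔ a1 = a1 ⊔ a2
  t3 : c23 ⊔ a3 = a2 ⊔ a3

section Sub

variable {R E : Type*} [Ring R] [AddCommGroup E] [Module R E]
  {z a1 a2 a3 c12 c23 : Submodule R E}

theorem mem_cmp (hF : Frm z a1 a2 a3 c12 c23) {p g : Submodule R E}
    (hzp : z ≤ p) (hp : p ≤ a1 ⊔ a2) (hzg : z ≤ g) (hg : g ≤ a1 ⊔ a2)
    {v v' : E} (hv : v ∈ a1) (hv' : v' ∈ a2) :
    v - v' ∈ cmp a1 a2 a3 c12 c23 p g ↔
      ∃ α ∈ a2, ∃ β ∈ a1, v - α ∈ p ∧ β - α ∈ c12 ∧ β - v' ∈ g := by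
  have z1 : z ≤ a1 := inf_eq_left.1 hF.h1
  have z2 : z ≤ a2 := inf_eq_left.1 hF.h2
  have z3 : z ≤ a3 := inf_eq_left.1 hF.h3
  have z4 : z ≤ c12 := inf_eq_left.1 hF.h4
  have z5 : z ≤ c23 := inf_eq_left.1 hF.h5
  have b12 : c12 ≤ a1 ⊔ a2 := inf_eq_left.1 hF.h6
  have b23 : c23 ≤ a2 ⊔ a3 := inf_eq_left.1 hF.h7
  have q1 : ∀ x, x ∈ a1 ⊔ a2 → x ∈ a3 → x ∈ z := fun x h h' => hF.i1 ▸ ⟨h, h'⟩
  have q2 : ∀ x, x ∈ a1 ⊔ a3 → x ∈ a2 → x ∈ z := fun x h h' => hF.i2 ▸ ⟨h, h'⟩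
  have q3 : ∀ x, x ∈ a2 ⊔ a3 → x ∈ a1 → x ∈ z := fun x h h' => hF.i3 ▸ ⟨h, h'⟩
  have q4 : ∀ x, x ∈ c23 → x ∈ a2 → x ∈ z := fun x h h' => hF.k3 ▸ ⟨h, h'⟩
  constructor
  · intro h
    obtain ⟨h, -⟩ := h
    obtain ⟨X, ⟨hX, hX'⟩, Y, ⟨hY, hY'⟩, hXY⟩ := Submodule.mem_sup.1 h
    obtain ⟨p0, hp0, c0, hc0, rfl⟩ := Submodule.mem_sup.1 hX
    obtain ⟨d0, ⟨hd0, hd0'⟩, g0, hg0, rfl⟩ := Submodule.mem_sup.1 hY
    obtain ⟨x1, hx1, x2, hx2, rfl⟩ := Submodule.mem_sup.1 (hp hp0)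
    obtain ⟨y2, hy2, y3, hy3, rfl⟩ := Submodule.mem_sup.1 (b23 hc0)
    obtain ⟨g1, hg1, g2, hg2, rfl⟩ := Submodule.mem_sup.1 (hg hg0)
    obtain ⟨u, hu, w, hw, rfl⟩ := Submodule.mem_sup.1 hd0
    obtain ⟨u1, hu1, u2, hu2, rfl⟩ := Submodule.mem_sup.1 (b12 hu)
    obtain ⟨w2, hw2, w3, hw3, rfl⟩ := Submodule.mem_sup.1 (b23 hw)
    have m1 : ∀ {x}, x ∈ a1 → x ∈ a1 ⊔ a2 := fun h => Submodule.mem_sup_left h
    have e1 : x2 + y2 ∈ z := by
      refine q2 _ ?_ (a2.add_mem hx2 hy2)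
      have : x2 + y2 = (x1 + x2 + (y2 + y3)) - x1 - y3 := by abel
      rw [this]
      exact Submodule.sub_mem _ (Submodule.sub_mem _ hX' (Submodule.mem_sup_left hx1))
        (Submodule.mem_sup_right hy3)
    have e2 : u2 + w2 ∈ z := by
      refine q2 _ ?_ (a2.add_mem hu2 hw2)
      have : u2 + w2 = (u1 + u2 + (w2 + w3)) - u1 - w3 := by abel
      rw [this]
      exact Submodule.sub_mem _ (Submodule.sub_mem _ hd0' (Submodule.mem_sup_left hu1))
        (Submodule.mem_sup_right hw3)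
    have e3 : u1 + g1 ∈ z := by
      refine q3 _ ?_ (a1.add_mem hu1 hg1)
      have : u1 + g1 = (u1 + u2 + (w2 + w3) + (g1 + g2)) - (u2 + w2) - w3 - g2 := by abel
      rw [this]
      exact Submodule.sub_mem _ (Submodule.sub_mem _ (Submodule.sub_mem _ hY'
        (Submodule.mem_sup_left (z2 e2))) (Submodule.mem_sup_right hw3))
        (Submodule.mem_sup_left hg2)
    have e4 : y3 + w3 ∈ z := by
      refine q1 _ ?_ (a3.add_mem hy3 hw3)
      have : y3 + w3 = v - v' - x1 - (x2 + y2) - (u1 + g1) - (u2 + w2) - g2 := by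
        rw [← hXY]; abel
      rw [this]
      refine Submodule.sub_mem _ (Submodule.sub_mem _ (Submodule.sub_mem _ (Submodule.sub_mem _
        (Submodule.sub_mem _ (Submodule.sub_mem _ ?_ ?_) ?_) ?_) ?_) ?_) ?_
      · exact Submodule.mem_sup_left hv
      · exact Submodule.mem_sup_right hv'
      · exact Submodule.mem_sup_left hx1
      · exact Submodule.mem_sup_left (z1 e1)
      · exact Submodule.mem_sup_left (z1 e3)
      · exact Submodule.mem_sup_left (z1 e2)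
      · exact Submodule.mem_sup_right hg2
    have e5 : v - x1 ∈ z := by
      refine q3 _ ?_ (a1.sub_mem hv hx1)
      have : v - x1 = v' + (x2 + y2) + (u1 + g1) + (u2 + w2) + (y3 + w3) + g2 := by
        have h' : v = v' + (x1 + x2 + (y2 + y3) + (u1 + u2 + (w2 + w3) + (g1 + g2))) := by
          rw [hXY]; abel
        rw [h']; abel
      rw [this]
      refine Submodule.add_mem _ (Submodule.add_mem _ (Submodule.add_mem _ (Submodule.add_mem _
        (Submodule.add_mem _ ?_ ?_) ?_) ?_) ?_) ?_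
      · exact Submodule.mem_sup_left hv'
      · exact Submodule.mem_sup_left (z2 e1)
      · exact Submodule.mem_sup_left (z2 e3)
      · exact Submodule.mem_sup_left (z2 e2)
      · exact Submodule.mem_sup_left (z2 e4)
      · exact Submodule.mem_sup_left hg2
    have e6 : v' + g2 ∈ z := by
      have : v' + g2 = (v - x1) - (x2 + y2) - (u1 + g1) - (u2 + w2) - (y3 + w3) := by
        have h' : v = v' + (x1 + x2 + (y2 + y3) + (u1 + u2 + (w2 + w3) + (g1 + g2))) := by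
          rw [hXY]; abel
        rw [h']; abel
      rw [this]
      exact Submodule.sub_mem _ (Submodule.sub_mem _ (Submodule.sub_mem _ (Submodule.sub_mem _
        e5 e1) e3) e2) e4
    refine ⟨-x2, a2.neg_mem hx2, g1, hg1, ?_, ?_, ?_⟩
    · have : v - -x2 = (x1 + x2) + (v - x1) := by abel
      rw [this]
      exact p.add_mem hp0 (hzp e5)
    · -- g1 + x2 in c12
      have f1 : -x2 + w2 ∈ z := by
        refine q4 _ ?_ (a2.add_mem (a2.neg_mem hx2) hw2)
        have : -x2 + w2 = (y2 + y3) - (x2 + y2) + (w2 + w3) - (y3 + w3) := by abel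
        rw [this]
        exact c23.sub_mem (c23.add_mem (c23.sub_mem hc0 (z5 e1)) hw) (z5 e4)
      have : g1 - -x2 = -(u1 + u2) + (u1 + g1) + (u2 + w2) - (-x2 + w2) := by abel
      rw [this]
      exact c12.sub_mem (c12.add_mem (c12.add_mem (c12.neg_mem hu) (z4 e3)) (z4 e2)) (z4 f1)
    · have : g1 - v' = (g1 + g2) - (v' + g2) := by abel
      rw [this]
      exact g.sub_mem hg0 (hzg e6)
  · rintro ⟨α, hα, β, hβ, h1, h2, h3⟩
    have hα' : α ∈ c23 ⊔ a3 := by rw [hF.t3]; exact Submodule.mem_sup_left hα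
    obtain ⟨c, hc, γ, hγ, rfl⟩ := Submodule.mem_sup.1 hα'
    refine ⟨?_, Submodule.sub_mem _ (Submodule.mem_sup_left hv) (Submodule.mem_sup_right hv')⟩
    have : v - v' = (v - γ) + (γ - v') := by abel
    rw [this]
    refine Submodule.add_mem_sup ⟨?_, ?_⟩ ⟨?_, ?_⟩
    · have : v - γ = (v - (c + γ)) + c := by abel
      rw [this]
      exact Submodule.add_mem_sup h1 hc
    · exact Submodule.sub_mem _ (Submodule.mem_sup_left hv) (Submodule.mem_sup_right hγ)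
    · have : γ - v' = -(β - γ) + (β - v') := by abel
      rw [this]
      refine Submodule.add_mem_sup (Submodule.neg_mem _ ⟨?_, ?_⟩) h3
      · have : β - γ = (β - (c + γ)) + c := by abel
        rw [this]
        exact Submodule.add_mem_sup h2 hc
      · exact Submodule.sub_mem _ (Submodule.mem_sup_left hβ) (Submodule.mem_sup_right hγ)
    · exact Submodule.sub_mem _ (Submodule.mem_sup_right hγ) (Submodule.mem_sup_left hv')

/-- Elements between `z` and `a1 ⊔ a2`. -/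
def Gr (z a1 a2 : Submodule R E) : Type _ := {p : Submodule R E // z ≤ p ∧ p ≤ a1 ⊔ a2}

theorem cmp_bounds (hF : Frm z a1 a2 a3 c12 c23) {p g : Submodule R E} (hzp : z ≤ p) :
    z ≤ cmp a1 a2 a3 c12 c23 p g ∧ cmp a1 a2 a3 c12 c23 p g ≤ a1 ⊔ a2 := by
  have z1 : z ≤ a1 := inf_eq_left.1 hF.h1
  exact ⟨le_inf (le_sup_of_le_left (le_inf (le_sup_of_le_left hzp) (le_sup_of_le_left z1)))
    (le_sup_of_le_left z1), inf_le_right⟩

theorem gr_ext (hF : Frm z a1 a2 a3 c12 c23) {p q : Submodule R E}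
    (hp : p ≤ a1 ⊔ a2) (hq : q ≤ a1 ⊔ a2)
    (h : ∀ v ∈ a1, ∀ v' ∈ a2, v - v' ∈ p ↔ v - v' ∈ q) : p = q := by
  have key : ∀ {p q : Submodule R E}, p ≤ a1 ⊔ a2 →
      (∀ v ∈ a1, ∀ v' ∈ a2, v - v' ∈ p → v - v' ∈ q) → p ≤ q := by
    intro p q hp h x hx
    obtain ⟨v, hv, v', hv', rfl⟩ := Submodule.mem_sup.1 (hp hx)
    have := h v hv (-v') (a2.neg_mem hv')
    rw [sub_neg_eq_add] at this
    exact this hx
  exact le_antisymm (key hp fun v hv v' hv' => (h v hv v' hv').1)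
    (key hq fun v hv v' hv' => (h v hv v' hv').2)

/-- The monoid of relations. -/
@[reducible] def grMonoid (hF : Frm z a1 a2 a3 c12 c23) : Monoid (Gr z a1 a2) where
  mul p q := ⟨cmp a1 a2 a3 c12 c23 p.1 q.1, cmp_bounds hF p.2.1⟩
  one := ⟨c12, inf_eq_left.1 hF.h4, inf_eq_left.1 hF.h6⟩
  mul_assoc p q g := by
    apply Subtype.ext
    change cmp a1 a2 a3 c12 c23 (cmp a1 a2 a3 c12 c23 p.1 q.1) g.1 =
      cmp a1 a2 a3 c12 c23 p.1 (cmp a1 a2 a3 c12 c23 q.1 g.1)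
    have b1 := cmp_bounds hF (g := q.1) p.2.1
    have b2 := cmp_bounds hF (g := g.1) q.2.1
    refine gr_ext hF (cmp_bounds hF b1.1).2 (cmp_bounds hF p.2.1).2 ?_
    intro v hv v' hv'
    rw [mem_cmp hF b1.1 b1.2 g.2.1 g.2.2 hv hv', mem_cmp hF p.2.1 p.2.2 b2.1 b2.2 hv hv']
    constructor
    · rintro ⟨α, hα, β, hβ, h1, h2, h3⟩
      rw [mem_cmp hF p.2.1 p.2.2 q.2.1 q.2.2 hv hα] at h1
      obtain ⟨α', hα', β', hβ', h1', h2', h3'⟩ := h1
      refine ⟨α', hα', β', hβ', h1', h2', ?_⟩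
      rw [mem_cmp hF q.2.1 q.2.2 g.2.1 g.2.2 hβ' hv']
      exact ⟨α, hα, β, hβ, h3', h2, h3⟩
    · rintro ⟨α', hα', β', hβ', h1', h2', h3'⟩
      rw [mem_cmp hF q.2.1 q.2.2 g.2.1 g.2.2 hβ' hv'] at h3'
      obtain ⟨α, hα, β, hβ, h1, h2, h3⟩ := h3'
      refine ⟨α, hα, β, hβ, ?_, h2, h3⟩
      rw [mem_cmp hF p.2.1 p.2.2 q.2.1 q.2.2 hv hα]
      exact ⟨α', hα', β', hβ', h1', h2', h1⟩
  one_mul g := by
    apply Subtype.ext
    change cmp a1 a2 a3 c12 c23 c12 g.1 = g.1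
    have z4 : z ≤ c12 := inf_eq_left.1 hF.h4
    refine gr_ext hF (cmp_bounds hF z4).2 g.2.2 ?_
    intro v hv v' hv'
    rw [mem_cmp hF z4 (inf_eq_left.1 hF.h6) g.2.1 g.2.2 hv hv']
    constructor
    · rintro ⟨α, hα, β, hβ, h1, h2, h3⟩
      have : v - β ∈ z := by
        rw [← hF.k1]
        refine ⟨?_, a1.sub_mem hv hβ⟩
        have : v - β = (v - α) - (β - α) := by abel
        rw [this]
        exact c12.sub_mem h1 h2
      have e : v - v' = (v - β) + (β - v') := by abel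
      rw [e]
      exact g.1.add_mem (g.2.1 this) h3
    · intro h
      have h1 : v ∈ c12 ⊔ a2 := by rw [hF.t1]; exact Submodule.mem_sup_left hv
      obtain ⟨c, hc, α, hα, e⟩ := Submodule.mem_sup.1 h1
      have e' : v - α = c := by rw [← e]; abel
      exact ⟨α, hα, v, hv, e' ▸ hc, e' ▸ hc, h⟩
  mul_one p := by
    apply Subtype.ext
    change cmp a1 a2 a3 c12 c23 p.1 c12 = p.1
    have z4 : z ≤ c12 := inf_eq_left.1 hF.h4
    refine gr_ext hF (cmp_bounds hF p.2.1).2 p.2.2 ?_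
    intro v hv v' hv'
    rw [mem_cmp hF p.2.1 p.2.2 z4 (inf_eq_left.1 hF.h6) hv hv']
    constructor
    · rintro ⟨α, hα, β, hβ, h1, h2, h3⟩
      have : α - v' ∈ z := by
        rw [← hF.k2]
        refine ⟨?_, a2.sub_mem hα hv'⟩
        have : α - v' = (β - v') - (β - α) := by abel
        rw [this]
        exact c12.sub_mem h3 h2
      have e : v - v' = (v - α) + (α - v') := by abel
      rw [e]
      exact p.1.add_mem h1 (p.2.1 this)
    · intro h
      have h1 : v' ∈ c12 ⊔ a1 := by rw [hF.t2]; exact Submodule.mem_sup_right hv'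
      obtain ⟨c, hc, β, hβ, e⟩ := Submodule.mem_sup.1 h1
      have e' : β - v' = -c := by rw [← e]; abel
      exact ⟨v', hv', β, hβ, h, e' ▸ c12.neg_mem hc, e' ▸ c12.neg_mem hc⟩

end Sub

/-- Words equal in a finitely presented group have equal values in every monoid in which the
defining relations hold. -/
theorem prod_eq_of_mem {m : ℕ} {Q : Type*} [Monoid Q] (q : Fin m × Bool → Q)
    (hinv : ∀ i b, q (i, b) * q (i, !b) = 1) (R : Set (FreeGroup (Fin m)))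
    (hR : ∀ r ∈ R, ((FreeGroup.toWord r).map q).prod = 1) {w w' : List (Fin m × Bool)}
    (hw : (FreeGroup.mk w)⁻¹ * FreeGroup.mk w' ∈ Subgroup.normalClosure R) :
    (w.map q).prod = (w'.map q).prod := by
  let u : Fin m → Qˣ := fun i => ⟨q (i, true), q (i, false), hinv i true, hinv i false⟩
  let φ : FreeGroup (Fin m) →* Qˣ := FreeGroup.lift u
  have h1 : ∀ w : List (Fin m × Bool), ((φ (FreeGroup.mk w) : Qˣ) : Q) = (w.map q).prod := by
    intro w
    induction w with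
    | nil => simp [φ]
    | cons x w ih =>
      have : FreeGroup.mk (x :: w) = FreeGroup.mk [x] * FreeGroup.mk w := by
        rw [FreeGroup.mul_mk]; rfl
      rw [this, map_mul, Units.val_mul, ih, List.map_cons, List.prod_cons]
      congr 1
      obtain ⟨i, b⟩ := x
      cases b
      · simp [φ, u, FreeGroup.lift_mk]
      · simp [φ, u, FreeGroup.lift_mk]
  have h2 : Subgroup.normalClosure R ≤ φ.ker := by
    apply Subgroup.normalClosure_le_normal
    intro r hr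
    rw [SetLike.mem_coe, MonoidHom.mem_ker]
    apply Units.ext
    have := h1 (FreeGroup.toWord r)
    rw [FreeGroup.mk_toWord] at this
    rw [this, hR r hr, Units.val_one]
  have h3 := h2 hw
  rw [MonoidHom.mem_ker, map_mul, map_inv, inv_mul_eq_one] at h3
  rw [← h1, ← h1, h3]

section Sub

variable {R E : Type*} [Ring R] [AddCommGroup E] [Module R E]
  {z a1 a2 a3 c12 c23 : Submodule R E}

/-- Soundness in lattices of submodules. -/
theorem wd_eq_of_mem (hF : Frm z a1 a2 a3 c12 c23) {m : ℕ} (g : Fin m × Bool → Submodule R E)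
    (hg : ∀ x, z ⊓ g x = z ∧ g x ⊓ (a1 ⊔ a2) = g x)
    (hinv : ∀ i b, wd a1 a2 a3 c12 c23 g [(i, b), (i, !b)] = c12)
    (Rl : Set (FreeGroup (Fin m)))
    (hR : ∀ r ∈ Rl, wd a1 a2 a3 c12 c23 g (FreeGroup.toWord r) = c12)
    {w : List (Fin m × Bool)} (hw : FreeGroup.mk w ∈ Subgroup.normalClosure Rl) :
    wd a1 a2 a3 c12 c23 g w = c12 := by
  letI := grMonoid hF
  let q : Fin m × Bool → Gr z a1 a2 := fun x =>
    ⟨g x, inf_eq_left.1 (hg x).1, inf_eq_left.1 (hg x).2⟩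
  have h1 : ∀ w, ((w.map q).prod).1 = wd a1 a2 a3 c12 c23 g w := by
    intro w
    induction w with
    | nil => rfl
    | cons x w ih =>
      rw [List.map_cons, List.prod_cons]
      change cmp a1 a2 a3 c12 c23 (g x) ((w.map q).prod).1 = _
      rw [ih]
      rfl
  have h2 := prod_eq_of_mem q (fun i b => by
      apply Subtype.ext
      have := h1 [(i, b), (i, !b)]
      rw [List.map_cons, List.map_cons, List.map_nil, List.prod_cons, List.prod_cons,
        List.prod_nil, mul_one] at this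
      rw [this, hinv]
      rfl) Rl (fun r hr => by
      apply Subtype.ext
      rw [h1, hR r hr]
      rfl) (w := []) (w' := w) (by
        have : (FreeGroup.mk ([] : List (Fin m × Bool)))⁻¹ * FreeGroup.mk w = FreeGroup.mk w := by
          rw [← FreeGroup.one_eq_mk, inv_one, one_mul]
        rw [this]; exact hw)
  have h3 := congrArg Subtype.val h2
  rw [h1, h1] at h3
  exact h3.symm

end Sub

end Pool.Agent.Helper446.LS
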