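import Pool.Agent.Helper446.LS.Model

set_option autoImplicit false

/-!
Transfer of the model to subspaces of a vector space, modulo finite dimension.
-/

namespace Pool.Agent.Helper446.LS

open Submodule

section Thet

variable {F V M : Type*} [Field F] [AddCommGroup V] [Module F V] [AddCommGroup M] [Module F M]

/-- Preimages within `S`. -/
def Thet (S : Submodule F V) (Ψ : V →ₗ[F] M) (X : Submodule F M) : Submodule F V :=
  S ⊓ X.comap Ψ

theorem Thet_inf (S : Submodule F V) (Ψ : V →ₗ[F] M) (X X' : Submodule F M) :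
    Thet S Ψ (X ⊓ X') = Thet S Ψ X ⊓ Thet S Ψ X' := by
  unfold Thet
  rw [comap_inf]
  exact inf_inf_distrib_left _ _ _

theorem Thet_sup {S : Submodule F V} {Ψ : V →ₗ[F] M} (hS : S.map Ψ = ⊤) (X X' : Submodule F M) :
    Thet S Ψ (X ⊔ X') = Thet S Ψ X ⊔ Thet S Ψ X' := by
  unfold Thet
  apply le_antisymm
  · rintro v ⟨h1, h2⟩
    obtain ⟨x, hx, x', hx', h3⟩ := mem_sup.1 (mem_comap.1 h2)
    have h4 : x ∈ S.map Ψ := by rw [hS]; exact mem_top
    obtain ⟨s, hs, rfl⟩ := h4
    have : v = s + (v - s) := by abel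
    rw [this]
    refine add_mem_sup ⟨hs, hx⟩ ⟨S.sub_mem h1 hs, ?_⟩
    change Ψ (v - s) ∈ X'
    rw [map_sub, ← h3, add_sub_cancel_left]
    exact hx'
  · refine sup_le ?_ ?_
    · exact inf_le_inf_left _ (comap_mono le_sup_left)
    · exact inf_le_inf_left _ (comap_mono le_sup_right)

/-- A criterion. -/
theorem Thet_eq {S : Submodule F V} {Ψ : V →ₗ[F] M} {X : Submodule F M} {P : Submodule F V}
    (h1 : P ≤ Thet S Ψ X) (h2 : X ≤ P.map Ψ) (h3 : Thet S Ψ ⊥ ≤ P) : Thet S Ψ X = P := by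
  apply le_antisymm _ h1
  rintro v ⟨hv, hv'⟩
  obtain ⟨p, hp, hp'⟩ := h2 (mem_comap.1 hv')
  have : v = p + (v - p) := by abel
  rw [this]
  refine P.add_mem hp (h3 ⟨S.sub_mem hv (h1 hp).1, ?_⟩)
  change Ψ (v - p) ∈ (⊥ : Submodule F M)
  rw [map_sub, hp', sub_self]
  exact zero_mem _

end Thet

section Grp

variable {m : ℕ} (Rl : Set (FreeGroup (Fin m)))

/-- The finitely presented group. -/
abbrev Gq : Type := FreeGroup (Fin m) ⧸ Subgroup.normalClosure Rl

/-- The class of a word. -/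
def cl (w : List (Fin m × Bool)) : Gq Rl := QuotientGroup.mk (FreeGroup.mk w)

theorem cl_nil : cl Rl [] = 1 := by
  unfold cl
  rw [← FreeGroup.one_eq_mk]
  rfl

theorem cl_append (u w : List (Fin m × Bool)) : cl Rl (u ++ w) = cl Rl u * cl Rl w := by
  unfold cl
  rw [← FreeGroup.mul_mk]
  rfl

theorem cl_surj (h : Gq Rl) : ∃ w, cl Rl w = h := by
  obtain ⟨x, rfl⟩ := QuotientGroup.mk_surjective h
  refine ⟨x.toWord, ?_⟩
  unfold cl
  rw [FreeGroup.mk_toWord]

theorem cl_eq_iff (u w : List (Fin m × Bool)) :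
    cl Rl u = cl Rl w ↔ (FreeGroup.mk u)⁻¹ * FreeGroup.mk w ∈ Subgroup.normalClosure Rl := by
  unfold cl
  exact QuotientGroup.eq

theorem cl_eq_one_iff (w : List (Fin m × Bool)) :
    cl Rl w = 1 ↔ FreeGroup.mk w ∈ Subgroup.normalClosure Rl := by
  unfold cl
  exact QuotientGroup.eq_one_iff _

variable (F : Type*) [Field F]

/-- The space on which the group acts. -/
abbrev Yq : Type _ := (ℕ × Gq Rl) →₀ F

/-- The action. -/
noncomputable def Tq (h : Gq Rl) : Yq Rl F →ₗ[F] Yq Rl F :=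
  Finsupp.lmapDomain F F (fun p : ℕ × Gq Rl => (p.1, p.2 * h))

theorem Tq_single (h : Gq Rl) (n : ℕ) (k : Gq Rl) (c : F) :
    Tq Rl F h (Finsupp.single (n, k) c) = Finsupp.single (n, k * h) c := by
  unfold Tq
  rw [Finsupp.lmapDomain_apply, Finsupp.mapDomain_single]

theorem Tq_one : Tq Rl F 1 = LinearMap.id := by
  apply Finsupp.lhom_ext
  rintro ⟨n, k⟩ c
  rw [Tq_single, mul_one]
  rfl

theorem Tq_mul (h k : Gq Rl) : Tq Rl F (h * k) = Tq Rl F k ∘ₗ Tq Rl F h := by
  apply Finsupp.lhom_ext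
  rintro ⟨n, l⟩ c
  rw [Tq_single, LinearMap.comp_apply, Tq_single, Tq_single, mul_assoc]

theorem wd_ga (w : List (Fin m × Bool)) : wd (LinearMap.range (i1 F (Yq Rl F)))
    (LinearMap.range (i2 F (Yq Rl F))) (LinearMap.range (i3 F (Yq Rl F)))
    (LinearMap.range (ga (LinearMap.id : Yq Rl F →ₗ[F] Yq Rl F)))
    (LinearMap.range (d23 F (Yq Rl F)))
    (fun x => LinearMap.range (ga (Tq Rl F (cl Rl [x])))) w =
      LinearMap.range (ga (Tq Rl F (cl Rl w))) := by
  induction w with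
  | nil => rw [cl_nil, Tq_one]; rfl
  | cons x w ih =>
    change cmp _ _ _ _ _ _ (wd _ _ _ _ _ _ w) = _
    rw [ih, cmp_ga, ← Tq_mul, ← cl_append]
    rfl

end Grp

section Main

variable {F V : Type*} [Field F] [AddCommGroup V] [Module F V] {m : ℕ}
  (Rl : Set (FreeGroup (Fin m)))

variable (F) in
/-- The image of a basis vector. -/
noncomputable def psi (p : Fin 3 × ℕ × List (Fin m × Bool)) : Yq Rl F × Yq Rl F × Yq Rl F :=
  if p.1 = 0 then i1 F _ (Finsupp.single (p.2.1, cl Rl p.2.2) 1)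
  else if p.1 = 1 then i2 F _ (Finsupp.single (p.2.1, cl Rl p.2.2) 1)
  else i3 F _ (Finsupp.single (p.2.1, cl Rl p.2.2) 1)

theorem psi0 (n : ℕ) (w : List (Fin m × Bool)) :
    psi F Rl (0, n, w) = i1 F _ (Finsupp.single (n, cl Rl w) 1) := rfl
theorem psi1 (n : ℕ) (w : List (Fin m × Bool)) :
    psi F Rl (1, n, w) = i2 F _ (Finsupp.single (n, cl Rl w) 1) := rfl
theorem psi2 (n : ℕ) (w : List (Fin m × Bool)) :
    psi F Rl (2, n, w) = i3 F _ (Finsupp.single (n, cl Rl w) 1) := rfl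

variable (e : Fin 3 × ℕ × List (Fin m × Bool) → V)

theorem exists_ext (he : LinearIndependent F e) :
    ∃ Ψ : V →ₗ[F] (Yq Rl F × Yq Rl F × Yq Rl F), ∀ p, Ψ (e p) = psi F Rl p := by
  let B := Module.Basis.span he
  obtain ⟨Ψ, hΨ⟩ := LinearMap.exists_extend (B.constr F (psi F Rl))
  refine ⟨Ψ, fun p => ?_⟩
  have h1 := LinearMap.congr_fun hΨ (B p)
  rw [Module.Basis.constr_basis] at h1
  rw [← h1]
  simp [B, Module.Basis.span_apply]

/-- The words that are made trivial. -/
def rws (r : List (Fin m × Bool)) : Prop :=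
  (∃ g ∈ Rl, r = FreeGroup.toWord g) ∨ ∃ i b, r = [(i, b), (i, !b)]

/-- The span of the relations. -/
def DD : Submodule F V :=
  span F {v | ∃ j n x r y, rws Rl r ∧ v = e (j, n, x ++ (r ++ y)) - e (j, n, x ++ y)}

variable {Rl e}

/-- The congruence given by `DD`. -/
def conD : Con (FreeMonoid (Fin m × Bool)) where
  r u u' := ∀ j n x y, e (j, n, x ++ (u.toList ++ y)) - e (j, n, x ++ (u'.toList ++ y)) ∈
    (DD Rl e : Submodule F V)
  iseqv := by
    refine ⟨fun u j n x y => ?_, fun {u u'} h j n x y => ?_, fun {u u' u''} h h' j n x y => ?_⟩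
    · rw [sub_self]; exact zero_mem _
    · rw [← neg_sub]; exact neg_mem (h j n x y)
    · have := add_mem (h j n x y) (h' j n x y)
      rwa [sub_add_sub_cancel] at this
  mul' := by
    intro u u' v v' h h' j n x y
    have h1 := h j n x (v.toList ++ y)
    have h2 := h' j n (x ++ u'.toList) y
    have h3 := add_mem h1 h2
    rw [List.append_assoc, sub_add_sub_cancel] at h3
    simpa [List.append_assoc] using h3

theorem sub_mem_DD {w w' : List (Fin m × Bool)} (h : cl Rl w = cl Rl w') (j : Fin 3) (n : ℕ) :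
    e (j, n, w) - e (j, n, w') ∈ (DD Rl e : Submodule F V) := by
  let c : Con (FreeMonoid (Fin m × Bool)) := conD (F := F) (Rl := Rl) (e := e)
  let q : Fin m × Bool → c.Quotient := fun x => (FreeMonoid.of x : FreeMonoid (Fin m × Bool))
  have hq : ∀ w : List (Fin m × Bool), (w.map q).prod =
      ((FreeMonoid.ofList w : FreeMonoid (Fin m × Bool)) : c.Quotient) := by
    intro w
    induction w with
    | nil => rfl
    | cons x w ih =>
      rw [List.map_cons, List.prod_cons, ih]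
      rfl
  have hr : ∀ r, rws Rl r → (r.map q).prod = 1 := by
    intro r hr
    rw [hq, ← Con.coe_one, Con.eq]
    intro j n x y
    refine subset_span ⟨j, n, x, r, y, hr, ?_⟩
    simp
  have h1 := prod_eq_of_mem q (fun i b => by
    have := hr [(i, b), (i, !b)] (Or.inr ⟨i, b, rfl⟩)
    rw [List.map_cons, List.map_cons, List.map_nil, List.prod_cons, List.prod_cons,
        List.prod_nil, mul_one] at this
    exact this) Rl (fun r hr' => hr _ (Or.inl ⟨r, hr', rfl⟩)) ((cl_eq_iff Rl w w').1 h)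
  rw [hq, hq, Con.eq] at h1
  have := h1 j n [] []
  simpa using this

variable (F Rl e) in
/-- The section. -/
noncomputable def sec (j : Fin 3) : Yq Rl F →ₗ[F] V :=
  Finsupp.linearCombination F (fun p : ℕ × Gq Rl => e (j, p.1, (cl_surj Rl p.2).choose))

variable {Ψ : V →ₗ[F] (Yq Rl F × Yq Rl F × Yq Rl F)}

theorem Thet_bot (hΨ : ∀ p, Ψ (e p) = psi F Rl p) :
    Thet (span F (Set.range e)) Ψ ⊥ = DD Rl e := by
  let R : (Yq Rl F × Yq Rl F × Yq Rl F) →ₗ[F] V :=
    (sec F Rl e 0).coprod ((sec F Rl e 1).coprod (sec F Rl e 2))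
  have hR : ∀ v ∈ span F (Set.range e), v - R (Ψ v) ∈ (DD Rl e : Submodule F V) := by
    intro v hv
    induction hv using span_induction with
    | mem x hx =>
      obtain ⟨⟨j, n, w⟩, rfl⟩ := hx
      rw [hΨ]
      have h1 : ∀ j, e (j, n, w) - sec F Rl e j (Finsupp.single (n, cl Rl w) 1) ∈
          (DD Rl e : Submodule F V) := by
        intro j
        unfold sec
        rw [Finsupp.linearCombination_single, one_smul]
        exact sub_mem_DD (cl_surj Rl (cl Rl w)).choose_spec.symm j n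
      fin_cases j
      · change e (0, n, w) - R (psi F Rl (0, n, w)) ∈ DD Rl e
        rw [psi0]
        simpa [R] using h1 0
      · change e (1, n, w) - R (psi F Rl (1, n, w)) ∈ DD Rl e
        rw [psi1]
        simpa [R] using h1 1
      · change e (2, n, w) - R (psi F Rl (2, n, w)) ∈ DD Rl e
        rw [psi2]
        simpa [R] using h1 2
    | zero => simp
    | add x y _ _ hx hy =>
      rw [map_add, map_add, add_sub_add_comm]
      exact add_mem hx hy
    | smul a x _ hx =>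
      rw [map_smul, map_smul, ← smul_sub]
      exact smul_mem _ a hx
  apply le_antisymm
  · rintro v ⟨h1, h2⟩
    have h3 : Ψ v = 0 := h2
    have := hR v h1
    rwa [h3, map_zero, sub_zero] at this
  · unfold DD
    rw [span_le]
    rintro _ ⟨j, n, x, r, y, hr, rfl⟩
    refine ⟨sub_mem (subset_span ⟨_, rfl⟩) (subset_span ⟨_, rfl⟩), ?_⟩
    change Ψ (_ - _) = 0
    rw [map_sub, hΨ, hΨ, sub_eq_zero]
    have h1 : cl Rl r = 1 := by
      rcases hr with ⟨g, hg, rfl⟩ | ⟨i, b, rfl⟩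
      · rw [cl_eq_one_iff, FreeGroup.mk_toWord]
        exact Subgroup.subset_normalClosure hg
      · rw [cl_eq_one_iff]
        have : FreeGroup.mk [(i, b), (i, !b)] = 1 := by
          rw [FreeGroup.one_eq_mk]
          apply Quot.sound
          exact FreeGroup.Red.Step.not (L₁ := []) (L₂ := [])
        rw [this]
        exact one_mem _
    unfold psi
    simp only [cl_append, h1, one_mul]

theorem map_top (hΨ : ∀ p, Ψ (e p) = psi F Rl p) :
    (span F (Set.range e)).map Ψ = ⊤ := by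
  rw [eq_top_iff]
  have h1 : ∀ (i : Yq Rl F →ₗ[F] (Yq Rl F × Yq Rl F × Yq Rl F)),
      (∀ n w, i (Finsupp.single (n, cl Rl w) 1) ∈ (span F (Set.range e)).map Ψ) →
      ∀ y, i y ∈ (span F (Set.range e)).map Ψ := by
    intro i hi y
    induction y using Finsupp.induction_linear with
    | zero => rw [map_zero]; exact zero_mem _
    | add f g hf hg => rw [map_add]; exact add_mem hf hg
    | single a b =>
      obtain ⟨n, h⟩ := a
      obtain ⟨w, rfl⟩ := cl_surj Rl h
      have : (Finsupp.single (n, cl Rl w) b : Yq Rl F) = b • Finsupp.single (n, cl Rl w) 1 := by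
        rw [Finsupp.smul_single, smul_eq_mul, mul_one]
      rw [this, map_smul]
      exact smul_mem _ _ (hi n w)
  rintro ⟨x, y, z⟩ -
  have h2 : (x, y, z) = i1 F _ x + i2 F _ y + i3 F _ z := by simp
  rw [h2]
  refine add_mem (add_mem (h1 _ (fun n w => ?_) x) (h1 _ (fun n w => ?_) y))
    (h1 _ (fun n w => ?_) z)
  · rw [← psi0, ← hΨ]; exact mem_map_of_mem (subset_span ⟨_, rfl⟩)
  · rw [← psi1, ← hΨ]; exact mem_map_of_mem (subset_span ⟨_, rfl⟩)
  · rw [← psi2, ← hΨ]; exact mem_map_of_mem (subset_span ⟨_, rfl⟩)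

theorem Thet_range (hΨ : ∀ p, Ψ (e p) = psi F Rl p)
    (γ : Yq Rl F →ₗ[F] (Yq Rl F × Yq Rl F × Yq Rl F)) (f : ℕ × List (Fin m × Bool) → V)
    (hfS : ∀ p, f p ∈ span F (Set.range e))
    (hf : ∀ n w, Ψ (f (n, w)) = γ (Finsupp.single (n, cl Rl w) 1)) :
    Thet (span F (Set.range e)) Ψ (LinearMap.range γ) = span F (Set.range f) ⊔ DD Rl e := by
  apply Thet_eq
  · refine sup_le ?_ ?_
    · rw [span_le]
      rintro _ ⟨⟨n, w⟩, rfl⟩
      refine ⟨hfS _, ?_⟩
      change Ψ _ ∈ LinearMap.range γ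
      rw [hf]
      exact ⟨_, rfl⟩
    · rw [← Thet_bot hΨ]
      exact inf_le_inf_left _ (comap_mono bot_le)
  · rintro _ ⟨y, rfl⟩
    induction y using Finsupp.induction_linear with
    | zero => rw [map_zero]; exact zero_mem _
    | add f g hf hg => rw [map_add]; exact add_mem hf hg
    | single a b =>
      obtain ⟨n, h⟩ := a
      obtain ⟨w, rfl⟩ := cl_surj Rl h
      have : (Finsupp.single (n, cl Rl w) b : Yq Rl F) = b • Finsupp.single (n, cl Rl w) 1 := by
        rw [Finsupp.smul_single, smul_eq_mul, mul_one]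
      rw [this, map_smul, ← hf]
      exact smul_mem _ _ (mem_map_of_mem (mem_sup_left (subset_span ⟨_, rfl⟩)))
  · rw [Thet_bot hΨ]
    exact le_sup_right

/-- Separation. -/
theorem not_starEq (hΨ : ∀ p, Ψ (e p) = psi F Rl p) {w : List (Fin m × Bool)}
    (hw : cl Rl w ≠ 1) :
    ¬ ∃ U : Submodule F V, FiniteDimensional F U ∧
      Thet (span F (Set.range e)) Ψ (LinearMap.range (ga (Tq Rl F (cl Rl w)))) ⊔ U =
      Thet (span F (Set.range e)) Ψ (LinearMap.range (ga (LinearMap.id : Yq Rl F →ₗ[F] _))) ⊔ U := by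
  rintro ⟨U, hU, h⟩
  let Λ : (Yq Rl F × Yq Rl F × Yq Rl F) →ₗ[F] Yq Rl F :=
    (Tq Rl F (cl Rl w)).coprod (LinearMap.id.coprod 0)
  let d : ℕ → Yq Rl F := fun n => Finsupp.single (n, cl Rl w) 1 - Finsupp.single (n, 1) 1
  have h1 : ∀ n, d n ∈ U.map (Λ ∘ₗ Ψ) := by
    intro n
    have h2 : e (0, n, []) - e (1, n, []) ∈ Thet (span F (Set.range e)) Ψ
        (LinearMap.range (ga (LinearMap.id : Yq Rl F →ₗ[F] _))) ⊔ U := by
      refine mem_sup_left ⟨sub_mem (subset_span ⟨_, rfl⟩) (subset_span ⟨_, rfl⟩), ?_⟩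
      change Ψ _ ∈ LinearMap.range (ga (LinearMap.id : Yq Rl F →ₗ[F] _))
      rw [map_sub, hΨ, hΨ, psi0, psi1]
      refine ⟨Finsupp.single (n, cl Rl []) 1, ?_⟩
      simp
    rw [← h] at h2
    obtain ⟨t, ⟨ht1, ht2⟩, u, hu, htu⟩ := mem_sup.1 h2
    refine ⟨u, hu, ?_⟩
    obtain ⟨y, hy⟩ := (show Ψ t ∈ LinearMap.range (ga (Tq Rl F (cl Rl w))) from ht2)
    have h3 : Λ (Ψ t) = 0 := by
      rw [← hy]
      simp [Λ]
    have h4 : u = (e (0, n, []) - e (1, n, [])) - t := by rw [← htu]; abel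
    rw [LinearMap.comp_apply, h4, map_sub, map_sub, h3, sub_zero, map_sub, hΨ, hΨ, psi0, psi1]
    simp only [Λ, d, i1_apply, i2_apply, Prod.mk_sub_mk, LinearMap.coprod_apply, sub_zero,
      zero_sub, LinearMap.id_apply, LinearMap.zero_apply, add_zero, neg_zero, Tq_single,
      cl_nil, one_mul]
    abel
  have hli : LinearIndependent F d := by
    rw [linearIndependent_iff']
    intro s g hg i hi
    have h2 := DFunLike.congr_fun hg (i, 1)
    rw [Finsupp.finsetSum_apply] at h2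
    have h3 : ∀ j, (g j • d j) (i, 1) = if j = i then - g j else 0 := by
      intro j
      have hne : ¬ (cl Rl w = 1) := hw
      by_cases hji : j = i
      · subst hji
        simp [d, Finsupp.single_apply, hne]
      · simp [d, Finsupp.single_apply, hji]
    simp only [h3, Finset.sum_ite_eq', hi, if_true, Finsupp.coe_zero, Pi.zero_apply,
      neg_eq_zero] at h2
    exact h2
  have h7 : LinearIndependent F (fun n => (⟨d n, h1 n⟩ : U.map (Λ ∘ₗ Ψ))) :=
    LinearIndependent.of_comp (U.map (Λ ∘ₗ Ψ)).subtype hli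
  have h8 := h7.finite
  exact not_finite ℕ

end Main

end Pool.Agent.Helper446.LS
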