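import Mathlib

set_option autoImplicit false

/-! Adapted from a file of helper599. -/

namespace Pool.Agent.Helper446.LS.WPSource

open Turing Relation
open Turing.PartrecToTM2 (trNat trList trNum trPosNum)

/-- A counter machine whose steps are affine on residue classes: in state `q` with counters `n`,
all residues modulo `B` being given by `r`, the next state is `nxt q r` (`none`: stop) and the
counter `n j` becomes `a q r j * (n j / B) + b q r j`. -/
structure Sys (Q J : Type) where
  B : ℕ
  hB : 0 < B
  nxt : Q → (J → Fin B) → Option Q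
  a : Q → (J → Fin B) → J → ℕ
  b : Q → (J → Fin B) → J → ℕ

namespace Sys

variable {Q J : Type} (M : Sys Q J)

/-- residues of the counters -/
def res (n : J → ℕ) : J → Fin M.B := fun j => ⟨n j % M.B, Nat.mod_lt _ M.hB⟩

/-- new counters -/
def nn (q : Q) (n : J → ℕ) : J → ℕ :=
  fun j => M.a q (M.res n) j * (n j / M.B) + M.b q (M.res n) j

/-- the machine stops from the configuration -/
inductive Halts : Option Q → (J → ℕ) → Prop
  | stop (n : J → ℕ) : Halts none n
  | step (q : Q) (n : J → ℕ) : Halts (M.nxt q (M.res n)) (M.nn q n) → Halts (some q) n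

end Sys

/-- A universal computation with undecidable domain. -/
def u (n : ℕ) : Part ℕ := (Denumerable.ofNat Nat.Partrec.Code n).eval 0

theorem u_partrec : Partrec u := by
  have h := Nat.Partrec.Code.eval_part.comp
    (Computable.ofNat Nat.Partrec.Code) (Computable.const (0 : ℕ))
  exact h

theorem u_not_computable : ¬ ComputablePred (fun n => (u n).Dom) := by
  intro h
  refine ComputablePred.halting_problem 0 ?_
  have : ManyOneReducible (fun c : Nat.Partrec.Code => (Nat.Partrec.Code.eval c 0).Dom)
      (fun n => (u n).Dom) := by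
    refine ⟨Encodable.encode, Computable.encode, ?_⟩
    intro c
    simp [u, Denumerable.ofNat_encode]
  exact ComputablePred.computable_of_manyOneReducible this h

theorem exists_code_u : ∃ c : ToPartrec.Code, ∀ n : ℕ, (c.eval [n]).Dom ↔ (u n).Dom := by
  obtain ⟨c, hc⟩ := ToPartrec.Code.exists_code (Nat.Partrec'.part_iff₁.2 u_partrec)
  refine ⟨c, fun n => ?_⟩
  have := hc ⟨[n], rfl⟩
  simp only at this
  rw [this]
  simp [List.Vector.head]

theorem finite_states {Γ Λ : Type} [Inhabited Γ] [Inhabited Λ] (M : TM0.Machine Γ Λ) (S : Set Λ)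
    (hS : S.Finite) (ss : TM0.Supports M S) :
    ∃ (Λ' : Type) (_ : Inhabited Λ') (_ : Finite Λ') (M' : TM0.Machine Γ Λ'),
      ∀ l, (StateTransition.eval (TM0.step M') (TM0.init l)).Dom ↔
        (StateTransition.eval (TM0.step M) (TM0.init l)).Dom := by
  classical
  have : Finite S := hS
  let _ : Inhabited S := ⟨⟨default, ss.1⟩⟩
  let f₁ : PointedMap Γ Γ := ⟨id, rfl⟩
  let g₁ : PointedMap Λ S := ⟨fun q => if h : q ∈ S then ⟨q, h⟩ else default, by
    simp [ss.1]; rfl⟩
  let M' : TM0.Machine Γ S := M.map f₁ f₁ g₁ Subtype.val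
  have hg : ∀ q ∈ S, (g₁ q).val = q := by
    intro q hq
    change (if h : q ∈ S then (⟨q, h⟩ : S) else default).val = q
    simp [hq]
  have hf : Function.RightInverse f₁ f₁ := fun a => rfl
  refine ⟨S, inferInstance, inferInstance, M', fun l => ?_⟩
  have := TM0.Machine.map_respects M f₁ f₁ g₁ Subtype.val ss hf hg
  refine StateTransition.tr_eval_dom this (a₁ := TM0.init l) (a₂ := TM0.init l) ⟨ss.1, ?_⟩
  have h := TM0.map_init f₁ g₁ l
  rw [h]
  congr 1
  exact List.map_id l

/-- The tape symbol carrying the symbol `a` on the main stack. -/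
noncomputable def sym (b : Bool) (a : PartrecToTM2.Γ') :
    TM2to1.Γ' PartrecToTM2.K' (fun _ => PartrecToTM2.Γ') :=
  (b, Function.update (fun _ => none) PartrecToTM2.K'.main (some a))

theorem exists_machine :
    ∃ (Λ : Type) (_ : Inhabited Λ) (_ : Finite Λ)
      (M : TM0.Machine (TM2to1.Γ' PartrecToTM2.K' (fun _ => PartrecToTM2.Γ')) Λ),
      ∀ n, (StateTransition.eval (TM0.step M)
        (TM0.init (sym true .cons :: (trNat n).reverse.map (sym false)))).Dom ↔ (u n).Dom := by
  classical
  obtain ⟨c, hc⟩ := exists_code_u
  let inst : Inhabited PartrecToTM2.Λ' :=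
    ⟨PartrecToTM2.trNormal c PartrecToTM2.Cont'.halt⟩
  let M2 := PartrecToTM2.tr
  let M1 := TM2to1.tr M2
  let M0 := TM1to0.tr M1
  have s2 : @TM2.Supports _ _ _ _ inst M2 (PartrecToTM2.codeSupp c PartrecToTM2.Cont'.halt) :=
    PartrecToTM2.tr_supports c PartrecToTM2.Cont'.halt
  have s1 := TM2to1.tr_supports M2 s2
  have s0 := TM1to0.tr_supports M1 s1
  obtain ⟨Λ, i1, i2, M, hM⟩ := finite_states M0 _ (Finset.finite_toSet _) s0
  refine ⟨Λ, i1, i2, M, fun n => ?_⟩
  rw [hM, ← hc]
  have h2 := PartrecToTM2.tr_eval c [n]
  have h2' : (StateTransition.eval (TM2.step PartrecToTM2.tr)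
      (PartrecToTM2.init c [n])).Dom ↔ (c.eval [n]).Dom := by
    rw [h2]; rfl
  rw [← h2']
  have h1 := StateTransition.tr_eval_dom (TM2to1.tr_respects M2)
    (TM2to1.trCfg_init (K := PartrecToTM2.K') (Γ := fun _ => PartrecToTM2.Γ')
      (Λ := PartrecToTM2.Λ') (σ := Option PartrecToTM2.Γ') PartrecToTM2.K'.main (trList [n]))
  have e1 : (TM2.init PartrecToTM2.K'.main (trList [n]) :
      TM2.Cfg (fun _ : PartrecToTM2.K' => PartrecToTM2.Γ') PartrecToTM2.Λ'
        (Option PartrecToTM2.Γ')) = PartrecToTM2.init c [n] := by
    unfold TM2.init PartrecToTM2.init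
    congr 1
    funext k
    cases k <;> rfl
  rw [e1] at h1
  rw [← h1]
  have h0 := StateTransition.tr_eval_dom (TM1to0.tr_respects M1)
    (a₁ := TM1.init (TM2to1.trInit PartrecToTM2.K'.main (trList [n]))) rfl
  rw [← h0]
  have e2 : TM2to1.trInit (Γ := fun _ => PartrecToTM2.Γ') PartrecToTM2.K'.main (trList [n]) =
      sym true .cons :: (trNat n).reverse.map (sym false) := by
    have : (trList [n]).reverse = PartrecToTM2.Γ'.cons :: (trNat n).reverse := by simp
    unfold TM2to1.trInit
    rw [this]
    rfl
  rw [← e2]
  rfl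

/-- The recursion computing the binary digits of a number. -/
theorem trNat_rec (n : ℕ) : trNat (n + 1) =
    (if (n + 1) % 2 = 1 then PartrecToTM2.Γ'.bit1 else PartrecToTM2.Γ'.bit0) ::
      trNat ((n + 1) / 2) := by
  have key : ∀ (b : Bool) (m : ℕ), (b = false → m ≠ 0) → trNat (Nat.bit b m) =
      (if b then PartrecToTM2.Γ'.bit1 else PartrecToTM2.Γ'.bit0) :: trNat m := by
    intro b m hbm
    have h1 : ((Nat.bit b m : ℕ) : Num) = cond b Num.bit1 Num.bit0 (m : Num) :=
      Num.ofNat'_bit b m
    unfold trNat
    rw [h1]
    rcases hm : (m : Num) with _ | p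
    · cases b
      · exfalso
        apply hbm rfl
        have : ((m : Num) : ℕ) = 0 := by rw [hm]; rfl
        rwa [Num.to_of_nat] at this
      · rfl
    · cases b <;> rfl
  have h := key ((n + 1) % 2 = 1) ((n + 1) / 2) (by
    intro h
    simp only [decide_eq_false_iff_not] at h
    omega)
  have hb : Nat.bit (decide ((n + 1) % 2 = 1)) ((n + 1) / 2) = n + 1 := by
    by_cases h : (n + 1) % 2 = 1
    · simp [Nat.bit, h]; omega
    · simp [Nat.bit, h]; omega
  rw [hb] at h
  rw [h]
  simp

/-- The coded binary digits of a number form a computable function. -/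
theorem digits_computable (κ : PartrecToTM2.Γ' → ℕ) :
    Computable (fun n : ℕ => (trNat n).map κ) := by
  suffices h : Primrec₂ (fun (_ : Unit) (n : ℕ) => (trNat n).map κ) from
    (h.comp (Primrec.const ()) Primrec.id).to_comp
  refine Primrec.nat_strong_rec _ (g := fun _ (l : List (List ℕ)) =>
    if l.length = 0 then some []
    else (l[l.length / 2]?).map (fun v =>
      (if l.length % 2 = 1 then κ PartrecToTM2.Γ'.bit1 else κ PartrecToTM2.Γ'.bit0) :: v)) ?_ ?_
  · refine Primrec.ite (PrimrecRel.comp Primrec.eq
      (Primrec.list_length.comp Primrec.snd) (Primrec.const 0)) (Primrec.const _) ?_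
    refine Primrec.option_map (Primrec.list_getElem?.comp Primrec.snd
      (Primrec.nat_div.comp (Primrec.list_length.comp Primrec.snd) (Primrec.const 2))) ?_
    refine Primrec.list_cons.comp (Primrec.ite (PrimrecRel.comp Primrec.eq
      (Primrec.nat_mod.comp (Primrec.list_length.comp (Primrec.snd.comp Primrec.fst))
        (Primrec.const 2)) (Primrec.const 1)) (Primrec.const _) (Primrec.const _)) Primrec.snd
  · intro _ n
    rcases n with _ | n
    · simp
    · have : (n + 1) / 2 < n + 1 := by omega
      simp only [List.length_map, List.length_range]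
      rw [if_neg (by omega)]
      rw [List.getElem?_map, List.getElem?_range this, trNat_rec n]
      simp only [Option.map_some, List.map_cons]
      split_ifs <;> rfl

section Tape

variable {Γ Λ : Type} [Inhabited Γ] [Fintype Γ] [DecidableEq Γ] [Inhabited Λ]

/-- the numeral of a symbol -/
noncomputable def kap (a : Γ) : ℕ := if a = default then 0 else (Fintype.equivFin Γ a : ℕ) + 1

/-- the base -/
def bas (Γ : Type) [Fintype Γ] : ℕ := Fintype.card Γ + 1

theorem kap_lt (a : Γ) : kap a < bas Γ := by
  unfold kap bas
  split_ifs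
  · omega
  · have := (Fintype.equivFin Γ a).2
    omega

theorem kap_inj : Function.Injective (kap : Γ → ℕ) := by
  intro a b h
  unfold kap at h
  split_ifs at h with h1 h2 h2
  · rw [h1, h2]
  · apply (Fintype.equivFin Γ).injective
    apply Fin.ext
    omega

theorem kap_default : kap (default : Γ) = 0 := by
  simp [kap]

/-- the symbol of a numeral -/
noncomputable def del (i : ℕ) : Γ := Function.invFun kap i

theorem del_kap (a : Γ) : del (kap a) = a := Function.leftInverse_invFun kap_inj a

/-- the number represents the half tape -/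
def Rep (x : ℕ) (l : ListBlank Γ) : Prop := ∀ i, x / bas Γ ^ i % bas Γ = kap (l.nth i)

theorem Rep.head {x : ℕ} {l : ListBlank Γ} (h : Rep x l) : x % bas Γ = kap l.head := by
  have := h 0
  simpa using this

theorem Rep.tail {x : ℕ} {l : ListBlank Γ} (h : Rep x l) : Rep (x / bas Γ) l.tail := by
  intro i
  have := h (i + 1)
  rw [ListBlank.nth_succ] at this
  rw [← this, Nat.div_div_eq_div_mul, pow_succ, mul_comm]

theorem Rep.cons {x : ℕ} {l : ListBlank Γ} (h : Rep x l) (a : Γ) :
    Rep (bas Γ * x + kap a) (l.cons a) := by
  have ha := kap_lt a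
  intro i
  cases i with
  | zero =>
    simp only [pow_zero, Nat.div_one, ListBlank.nth_zero, ListBlank.head_cons]
    rw [Nat.mul_add_mod, Nat.mod_eq_of_lt ha]
  | succ i =>
    rw [ListBlank.nth_succ, ListBlank.tail_cons, ← h i, pow_succ', ← Nat.div_div_eq_div_mul]
    congr 2
    rw [Nat.mul_add_div (by omega), Nat.div_eq_of_lt ha, add_zero]

/-- the number of a word -/
noncomputable def enc : List Γ → ℕ
  | [] => 0
  | a :: l => kap a + bas Γ * enc l

theorem rep_enc (l : List Γ) : Rep (enc l) (ListBlank.mk l) := by
  induction l with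
  | nil =>
    intro i
    simp [enc, ListBlank.nth_mk, kap_default]
  | cons a l ih =>
    have := ih.cons a
    rw [ListBlank.cons_mk] at this
    simpa [enc, add_comm] using this

theorem rep_zero : Rep 0 (ListBlank.mk ([] : List Γ)) := rep_enc []

/-- the multiplier of an action -/
noncomputable def fa (st : TM0.Stmt Γ) (j : Bool) : ℕ :=
  match st, j with
  | .move .left, true => bas Γ * bas Γ
  | .move .left, false => 1
  | .move .right, true => 1
  | .move .right, false => bas Γ * bas Γ
  | .write _, true => bas Γ
  | .write _, false => bas Γ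

/-- the constant of an action -/
noncomputable def fb (st : TM0.Stmt Γ) (r : Bool → Fin (bas Γ)) (j : Bool) : ℕ :=
  match st, j with
  | .move .left, true => bas Γ * r true + r false
  | .move .left, false => 0
  | .move .right, true => 0
  | .move .right, false => bas Γ * r false + r true
  | .write x, true => kap x
  | .write _, false => r false

/-- the counter machine of a tape machine -/
noncomputable def sys (M : TM0.Machine Γ Λ) : Sys Λ Bool where
  B := bas Γ
  hB := by unfold bas; omega
  nxt q r := (M q (del (r true))).map Prod.fst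
  a q r j := ((M q (del (r true))).map (fun p => fa p.2 j)).getD 0
  b q r j := ((M q (del (r true))).map (fun p => fb p.2 r j)).getD 0

theorem fa_pos (st : TM0.Stmt Γ) (j : Bool) : 0 < fa st j := by
  have h : 0 < bas Γ := by unfold bas; omega
  unfold fa
  split <;> positivity

theorem sys_pos (M : TM0.Machine Γ Λ) (q : Λ) (r : Bool → Fin (bas Γ)) (j : Bool)
    (h : (sys M).nxt q r ≠ none) : 0 < (sys M).a q r j := by
  change 0 < ((M q (del (r true))).map (fun p => fa p.2 j)).getD 0
  change (M q (del (r true))).map Prod.fst ≠ none at h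
  cases hM : M q (del (r true)) with
  | none => rw [hM] at h; exact absurd rfl h
  | some p => exact fa_pos p.2 j

/-- the counters represent the tape -/
def RepT (n : Bool → ℕ) (T : Tape Γ) : Prop := Rep (n true) T.right₀ ∧ Rep (n false) T.left

/-- the new tape -/
def act (st : TM0.Stmt Γ) (T : Tape Γ) : Tape Γ :=
  match st with
  | TM0.Stmt.move d => T.move d
  | TM0.Stmt.write a => T.write a

theorem step_eq (M : TM0.Machine Γ Λ) (q : Λ) (T : Tape Γ) :
    TM0.step M ⟨q, T⟩ = (M q T.1).map fun p => ⟨p.1, act p.2 T⟩ := rfl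

theorem head_right₀ (T : Tape Γ) : T.right₀.head = T.1 := by
  simp [Tape.right₀]

theorem rep_act (st : TM0.Stmt Γ) (T : Tape Γ) (n : Bool → ℕ) (h : RepT n T)
    (r : Bool → Fin (bas Γ)) (hr : ∀ j, (r j : ℕ) = n j % bas Γ) :
    RepT (fun j => fa st j * (n j / bas Γ) + fb st r j) (act st T) := by
  obtain ⟨h1, h2⟩ := h
  obtain ⟨a, L, R⟩ := T
  have e1 : (Tape.right₀ ⟨a, L, R⟩ : ListBlank Γ) = R.cons a := rfl
  rw [e1] at h1
  have h2 : Rep (n false) L := h2
  have hr1 := h1.head
  have hr2 := h2.head
  rw [ListBlank.head_cons] at hr1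
  have d1 := Nat.div_add_mod (n true) (bas Γ)
  have d2 := Nat.div_add_mod (n false) (bas Γ)
  have t1 := h1.tail
  rw [ListBlank.tail_cons] at t1
  rcases st with (_ | _) | x
  · constructor
    · have e : (act (.move .left) ⟨a, L, R⟩ : Tape Γ).right₀ = (R.cons a).cons L.head := rfl
      rw [e]
      have := h1.cons L.head
      convert this using 1
      simp only [fa, fb, hr]
      rw [← hr2]
      nlinarith
    · have e : (act (.move .left) ⟨a, L, R⟩ : Tape Γ).left = L.tail := rfl
      rw [e]
      have := h2.tail
      simpa [fa, fb] using this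
  · constructor
    · have e : (act (.move .right) ⟨a, L, R⟩ : Tape Γ).right₀ = R := by
        change R.tail.cons R.head = R
        simp
      rw [e]
      simpa [fa, fb] using t1
    · have e : (act (.move .right) ⟨a, L, R⟩ : Tape Γ).left = L.cons a := rfl
      rw [e]
      have := h2.cons a
      convert this using 1
      simp only [fa, fb, hr]
      rw [← hr1]
      nlinarith
  · constructor
    · have e : (act (.write x) ⟨a, L, R⟩ : Tape Γ).right₀ = R.cons x := rfl
      rw [e]
      exact t1.cons x
    · have e : (act (.write x) ⟨a, L, R⟩ : Tape Γ).left = L := rfl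
      rw [e]
      have : (fun j => fa (.write x : TM0.Stmt Γ) j * (n j / bas Γ) + fb (.write x) r j) false =
          n false := by
        simp only [fa, fb, hr]
        linarith
      rw [this]
      exact h2

/-- The counter machine stops exactly when the tape machine does. -/
theorem halts_iff (M : TM0.Machine Γ Λ) (q : Λ) (T : Tape Γ) (n : Bool → ℕ) (h : RepT n T) :
    (sys M).Halts (some q) n ↔ (StateTransition.eval (TM0.step M) ⟨q, T⟩).Dom := by
  have key : ∀ (q : Λ) (T : Tape Γ) (n : Bool → ℕ), RepT n T →
      M q (del ((sys M).res n true)) = M q T.1 := by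
    intro q T n h
    have : (((sys M).res n true : Fin _) : ℕ) = kap T.1 := by
      have := h.1.head
      rw [head_right₀] at this
      exact this
    rw [this, del_kap]
  have key2 : ∀ (q : Λ) (T : Tape Γ) (n : Bool → ℕ), RepT n T → ∀ p, M q T.1 = some p →
      (sys M).nxt q ((sys M).res n) = some p.1 ∧ RepT ((sys M).nn q n) (act p.2 T) := by
    intro q T n h p hp
    have hk := key q T n h
    rw [hp] at hk
    constructor
    · change (M q (del ((sys M).res n true))).map Prod.fst = some p.1
      rw [hk]; rfl
    · have := rep_act p.2 T n h ((sys M).res n) (fun j => rfl)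
      convert this using 1
      funext j
      simp only [Sys.nn]
      congr 1
      · change ((M q (del ((sys M).res n true))).map (fun p => fa p.2 j)).getD 0 * _ = _
        rw [hk]; rfl
      · change ((M q (del ((sys M).res n true))).map (fun p => fb p.2 _ j)).getD 0 = _
        rw [hk]; rfl
  constructor
  · intro hh
    generalize ho : some q = o at hh
    induction hh generalizing q T with
    | stop n => exact absurd ho (by simp)
    | step q' n _ ih =>
      obtain rfl : q = q' := Option.some.inj ho
      cases hM : M q T.1 with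
      | none =>
        rw [Part.dom_iff_mem]
        refine ⟨⟨q, T⟩, StateTransition.mem_eval.2 ⟨ReflTransGen.refl, ?_⟩⟩
        rw [step_eq, hM]; rfl
      | some p =>
        obtain ⟨h1, h2⟩ := key2 q T n h p hM
        have h3 := ih p.1 (act p.2 T) h2 h1.symm
        have h4 : StateTransition.Reaches (TM0.step M) ⟨q, T⟩ ⟨p.1, act p.2 T⟩ := by
          apply ReflTransGen.single
          rw [step_eq, hM]; rfl
        rw [StateTransition.reaches_eval h4]
        exact h3
  · intro hd
    rw [Part.dom_iff_mem] at hd
    obtain ⟨b, hb⟩ := hd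
    have main : ∀ a : TM0.Cfg Γ Λ, b ∈ StateTransition.eval (TM0.step M) a →
        ∀ n, RepT n a.Tape → (sys M).Halts (some a.q) n := by
      intro a ha
      refine StateTransition.evalInduction
        (C := fun a => ∀ n, RepT n a.Tape → (sys M).Halts (some a.q) n) ha ?_
      rintro ⟨q, T⟩ _ ih n hn
      apply Sys.Halts.step
      cases hM : M q T.1 with
      | none =>
        have : (sys M).nxt q ((sys M).res n) = none := by
          change (M q (del ((sys M).res n true))).map Prod.fst = none
          rw [key q T n hn, hM]; rfl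
        rw [this]
        exact Sys.Halts.stop _
      | some p =>
        obtain ⟨h1, h2⟩ := key2 q T n hn p hM
        rw [h1]
        exact ih ⟨p.1, act p.2 T⟩ (by rw [step_eq, hM]; rfl) _ h2
    exact main ⟨q, T⟩ hb n h

end Tape

/-- the initial counters -/
def ini (N : ℕ) : Bool → ℕ := fun j => if j then N else 0

theorem foldr_computable (B : ℕ) : Computable (fun l : List ℕ => l.foldr (fun d acc => d + B * acc) 0) := by
  apply Primrec.to_comp
  refine Primrec.list_foldr (f := fun l : List ℕ => l) (g := fun _ => 0)
    (h := fun _ (p : ℕ × ℕ) => p.1 + B * p.2) Primrec.id (Primrec.const 0) ?_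
  exact (Primrec.nat_add.comp (Primrec.fst.comp Primrec.snd)
    (Primrec.nat_mul.comp (Primrec.const B) (Primrec.snd.comp Primrec.snd))).to₂

/-- A fixed finite counter machine with undecidable halting problem. -/
theorem exists_sys : ∃ (Q : Type) (_ : Finite Q) (M : Sys Q Bool) (q0 : Q) (N : ℕ → ℕ),
    2 ≤ M.B ∧ (∀ q r j, M.nxt q r ≠ none → 0 < M.a q r j) ∧
    Computable N ∧ ¬ ComputablePred (fun n => M.Halts (some q0) (ini (N n))) := by
  classical
  obtain ⟨Λ, i1, i2, M, hM⟩ := exists_machine
  have fK : Finite PartrecToTM2.K' := by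
    refine Finite.of_injective (fun k : PartrecToTM2.K' => match k with
      | .main => (0 : Fin 4) | .rev => 1 | .aux => 2 | .stack => 3) ?_
    intro a b h
    cases a <;> cases b <;> simp_all
  have fG : Finite (TM2to1.Γ' PartrecToTM2.K' (fun _ => PartrecToTM2.Γ')) :=
    inferInstanceAs (Finite (Bool × (PartrecToTM2.K' → Option PartrecToTM2.Γ')))
  let _ : Fintype (TM2to1.Γ' PartrecToTM2.K' (fun _ => PartrecToTM2.Γ')) := Fintype.ofFinite _
  let N : ℕ → ℕ := fun n => enc (sym true .cons :: (trNat n).reverse.map (sym false))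
  refine ⟨Λ, i2, sys M, default, N, ?_, sys_pos M, ?_, ?_⟩
  · change 2 ≤ bas _
    have : 0 < Fintype.card (TM2to1.Γ' PartrecToTM2.K' (fun _ => PartrecToTM2.Γ')) :=
      Fintype.card_pos
    unfold bas
    omega
  · have h1 := digits_computable (fun a => kap (sym false a))
    have h2 : Computable (fun n : ℕ => ((trNat n).map (fun a => kap (sym false a))).reverse) :=
      Primrec.list_reverse.to_comp.comp h1
    have h3 := (foldr_computable
      (bas (TM2to1.Γ' PartrecToTM2.K' (fun _ => PartrecToTM2.Γ')))).comp h2
    have h4 : Computable (fun x : ℕ => kap (sym true .cons) +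
        (bas (TM2to1.Γ' PartrecToTM2.K' (fun _ => PartrecToTM2.Γ'))) * x) :=
      (Primrec.nat_add.comp (Primrec.const _)
        (Primrec.nat_mul.comp (Primrec.const _) Primrec.id)).to_comp
    refine (h4.comp h3).of_eq ?_
    intro n
    have e : ∀ l : List PartrecToTM2.Γ', enc (l.map (sym false)) =
        (l.map (fun a => kap (sym false a))).foldr (fun d acc => d +
          (bas (TM2to1.Γ' PartrecToTM2.K' (fun _ => PartrecToTM2.Γ'))) * acc) 0 := by
      intro l
      induction l with
      | nil => rfl
      | cons a l ih =>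
        simp only [List.map_cons, enc, List.foldr_cons, ih]
    simp only [N, enc]
    rw [e, List.map_reverse]
  · intro h
    apply u_not_computable
    refine h.of_eq ?_
    intro n
    rw [← hM n]
    apply halts_iff
    constructor
    · have := rep_enc (sym true .cons :: (trNat n).reverse.map (sym false))
      have e : (Tape.mk₁ (sym true PartrecToTM2.Γ'.cons :: (trNat n).reverse.map
          (sym false))).right₀ = ListBlank.mk (sym true .cons ::
            (trNat n).reverse.map (sym false)) := by
        unfold Tape.mk₁ Tape.mk₂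
        rw [Tape.mk'_right₀]
      simp only [TM0.init, e]
      exact this
    · exact rep_zero

end Pool.Agent.Helper446.LS.WPSource
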